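import Pool.Agent.W889.VC.HF

set_option autoImplicit false

/-! Transfer of the dichotomy and of faithful completeness. -/

namespace Pool.Agent.H16VC

open Pool.Agent.W889.VC (Dich VCof cont_of_meas Faithful)

theorem polish_bool : PolishSpace (ℕ → ℕ → Bool) := by
  have hp1 : SecondCountableTopology (ℕ → Bool) := inferInstance
  have hp3 : TopologicalSpace.IsCompletelyMetrizableSpace (ℕ → Bool) := inferInstance
  have hp4 : SecondCountableTopology (ℕ → ℕ → Bool) := inferInstance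
  have hp5 : TopologicalSpace.IsCompletelyMetrizableSpace (ℕ → ℕ → Bool) := inferInstance
  exact { }

theorem polish_prod {α β : Type} [TopologicalSpace α] [TopologicalSpace β] [PolishSpace α]
    [PolishSpace β] : PolishSpace (α × β) := by
  have hp4 : SecondCountableTopology (α × β) := inferInstance
  have hp5 : TopologicalSpace.IsCompletelyMetrizableSpace (α × β) := inferInstance
  exact { }

/-- If `φ` is an injective Borel map from `Y` to `X` whose image is invariant and which is a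
reduction, the dichotomy for `X` implies the dichotomy for `Y`. -/
theorem transfer {X Y : Type} [TopologicalSpace X] [MeasurableSpace X]
    [BorelSpace X] [MeasurableSpace.CountablySeparated X]
    [TopologicalSpace Y] [PolishSpace Y] [MeasurableSpace Y] [BorelSpace Y] [Nonempty Y]
    {E' : X → X → Prop} {E : Y → Y → Prop} {K' : X → Prop} {K : Y → Prop}
    (φ : Y → X) (hφ : Measurable φ) (hinj : Function.Injective φ)
    (hs' : ∀ x y, E' x y → E' y x) (hs : ∀ x y, E x y → E y x)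
    (hE : ∀ y z, E y z → E' (φ y) (φ z))
    (hE' : ∀ y x', E' (φ y) x' → ∃ z, φ z = x' ∧ E y z)
    (hK : ∀ y, K y → K' (φ y)) (h : VCof True E' K') : VCof True E K := by
  intro B hB hinv hBK
  have hemb : MeasurableEmbedding φ := hφ.measurableEmbedding hinj
  obtain ⟨ψ, hψ, hψφ⟩ := hemb.exists_measurable_extend (measurable_id (α := Y))
    fun _ => inferInstance
  have hl : ∀ y, ψ (φ y) = y := fun y => congrFun hψφ y
  have hstep : ∀ x y, E' x y → x ∈ φ '' B → y ∈ φ '' B := by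
    rintro x y hxy ⟨z, hz, rfl⟩
    obtain ⟨w, rfl, hw⟩ := hE' z y hxy
    exact ⟨w, (hinv _ _ hw).1 hz, rfl⟩
  rcases h (φ '' B) (hemb.measurableSet_image' hB)
    (fun x y hxy => ⟨hstep x y hxy, hstep y x (hs' x y hxy)⟩)
    (by rintro _ ⟨z, hz, rfl⟩; exact hK z (hBK z hz)) with ⟨f, hf⟩ | ⟨g, h1, h2, h3⟩
  · left
    refine ⟨fun n => ψ (f n), fun y hy => ?_⟩
    obtain ⟨n, hn⟩ := hf (φ y) ⟨y, hy, rfl⟩
    obtain ⟨z, hz, hyz⟩ := hE' y _ (hs' _ _ hn)
    refine ⟨n, hs _ _ ?_⟩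
    show E y (ψ (f n))
    rw [← hz, hl]
    exact hyz
  · right
    have hm : Measurable (fun c => ψ (g c)) := hψ.comp (h1 trivial).measurable
    obtain ⟨k, hk1, hk2⟩ := cont_of_meas hm
    refine ⟨_, fun _ => hk2, fun c => ?_, fun c d hcd => hk1 ?_⟩
    · obtain ⟨z, hz, hzc⟩ := h2 (k c)
      show ψ (g (k c)) ∈ B
      rw [← hzc, hl]
      exact hz
    · apply h3
      obtain ⟨z, hz, hzc⟩ := h2 (k c)
      obtain ⟨w, hw, hwd⟩ := h2 (k d)
      have h4 : E (ψ (g (k c))) (ψ (g (k d))) := hcd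
      rw [← hzc, ← hwd, hl, hl] at h4
      rw [← hzc, ← hwd]
      exact hE _ _ h4

/-- Faithful completeness passes from `X` to `Y` along an encoding. -/
theorem faithful_transfer {X Y : Type} [MeasurableSpace X] [MeasurableSpace Y]
    {E' : X → X → Prop} {E : Y → Y → Prop} {K' : X → Prop} {K : Y → Prop}
    (enc : X → Y) (dec : Y → X) (hdec : Measurable dec) (hc : MeasurableSet {y | enc (dec y) = y})
    (h1 : ∀ x, K' x → dec (enc x) = x) (hs : ∀ y z, E y z → E z y)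
    (hE1 : ∀ y z, E y z → E' (dec y) (dec z)) (hE2 : ∀ x x', E' x x' → E (enc x) (enc x'))
    (hinv : ∀ y z, E y z → enc (dec y) = y → enc (dec z) = z)
    (hK : ∀ x, K' x → K (enc x)) (h : Faithful E' K') : Faithful E K := by
  intro a B hB hBi
  obtain ⟨B', F, b1, b2, b3, b4, b5, b6, b7⟩ := h a B hB hBi
  refine ⟨{y | dec y ∈ B' ∧ enc (dec y) = y}, F ∘ dec, (hdec b1).inter hc, ?_, ?_,
    b4.comp hdec, fun y hy => b5 _ hy.1, ?_, ?_⟩
  · intro y z hyz
    constructor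
    · rintro ⟨h8, h9⟩
      exact ⟨(b2 _ _ (hE1 _ _ hyz)).1 h8, hinv y z hyz h9⟩
    · rintro ⟨h8, h9⟩
      exact ⟨(b2 _ _ (hE1 _ _ hyz)).2 h8, hinv z y (hs _ _ hyz) h9⟩
  · rintro y ⟨h8, h9⟩
    have := hK _ (b3 _ h8)
    rwa [h9] at this
  · rintro y ⟨h8, h9⟩ z ⟨h10, h11⟩
    show E y z ↔ W889.VC.Iso (F (dec y)) (F (dec z))
    rw [← b6 _ h8 _ h10]
    refine ⟨hE1 _ _, fun h => ?_⟩
    have := hE2 _ _ h
    rwa [h9, h11] at this
  · intro x hx
    obtain ⟨y, hy, h8⟩ := b7 x hx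
    have h9 := h1 y (b3 y hy)
    refine ⟨enc y, ⟨?_, ?_⟩, ?_⟩
    · rw [h9]; exact hy
    · rw [h9]
    · show W889.VC.Iso x (F (dec (enc y)))
      rw [h9]
      exact h8

/-- the dichotomy in readable form -/
def PVof {X : Type} [TopologicalSpace X] [MeasurableSpace X] (E : X → X → Prop)
    (K : X → Prop) : Prop :=
  ∀ B : Set X, MeasurableSet B → (∀ x y, E x y → (x ∈ B ↔ y ∈ B)) → (∀ x ∈ B, K x) →
    (∃ f : ℕ → X, ∀ x ∈ B, ∃ n, E (f n) x) ∨
    (∃ g : (ℕ → Bool) → X, Continuous g ∧ (∀ c, g c ∈ B) ∧ ∀ c d, E (g c) (g d) → c = d)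

theorem pv_iff {X : Type} [TopologicalSpace X] [MeasurableSpace X] (E : X → X → Prop)
    (K : X → Prop) : PVof E K ↔ VCof True E K := by
  constructor
  · intro h B h1 h2 h3
    rcases h B h1 h2 h3 with ⟨f, hf⟩ | ⟨g, h3, h4, h5⟩
    · exact Or.inl ⟨f, hf⟩
    · exact Or.inr ⟨g, fun _ => h3, h4, h5⟩
  · intro h B h1 h2 h3
    rcases h B h1 h2 h3 with ⟨f, hf⟩ | ⟨g, h3, h4, h5⟩
    · exact Or.inl ⟨f, hf⟩
    · exact Or.inr ⟨g, h3 trivial, h4, h5⟩

theorem VCof.mono {X : Type} [TopologicalSpace X] [MeasurableSpace X] {c : Prop}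
    {E : X → X → Prop} {K K' : X → Prop} (h : VCof c E K) (hK : ∀ x, K' x → K x) :
    VCof c E K' :=
  fun B h1 h2 h3 => h B h1 h2 fun x hx => hK x (h3 x hx)

end Pool.Agent.H16VC
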