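import Mathlib

set_option autoImplicit false

/-! Colourings without rainbow triangles: finite Gallai theorem, prime colourings. -/

namespace Pool.Agent.H16VC

open Relation

section fin

variable {α : Type} [DecidableEq α] (c : α → α → Fin 3)

/-- adjacent in colour `k` inside `S` -/
def R (k : Fin 3) (S : Finset α) (a b : α) : Prop := a ∈ S ∧ b ∈ S ∧ a ≠ b ∧ c a b = k

variable {c}

theorem R.symm' (hs : ∀ a b, c a b = c b a) {k : Fin 3} {S : Finset α} {a b : α}
    (h : R c k S a b) : R c k S b a :=
  ⟨h.2.1, h.1, h.2.2.1.symm, by rw [hs]; exact h.2.2.2⟩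

theorem rtg_symm (hs : ∀ a b, c a b = c b a) {k : Fin 3} {S : Finset α} {a b : α}
    (h : ReflTransGen (R c k S) a b) : ReflTransGen (R c k S) b a := by
  induction h with
  | refl => exact .refl
  | tail _ h2 ih => exact ReflTransGen.head (h2.symm' hs) ih

theorem rtg_mem {k : Fin 3} {S : Finset α} {a b : α} (ha : a ∈ S)
    (h : ReflTransGen (R c k S) a b) : b ∈ S := by
  induction h with
  | refl => exact ha
  | tail _ h2 _ => exact h2.2.1

/-- no rainbow triangle -/
def NR {C : Type} (c : α → α → C) : Prop :=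
  ∀ a b d, a ≠ b → b ≠ d → a ≠ d → c a b = c b d ∨ c b d = c a d ∨ c a b = c a d

/-- a component of one colour looks constant from outside -/
theorem constG {C : Type} {c : α → α → C} (κ : C → Fin 3) (hr : NR c) {k : Fin 3} {S : Finset α}
    {x y w : α} (hw : w ∈ S) (hxw : ¬ ReflTransGen (R (fun a b => κ (c a b)) k S) x w)
    (hxy : ReflTransGen (R (fun a b => κ (c a b)) k S) x y) (hx : x ∈ S) :
    c x w = c y w := by
  induction hxy with
  | refl => rfl
  | @tail a b h1 h2 ih =>
    rw [ih]
    have ha : a ≠ w := by rintro rfl; exact hxw h1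
    have hb : b ≠ w := by rintro rfl; exact hxw (h1.tail h2)
    have hca : κ (c a w) ≠ k := fun h => hxw (h1.tail ⟨rtg_mem hx h1, hw, ha, h⟩)
    have hcb : κ (c b w) ≠ k := fun h => hxw ((h1.tail h2).tail ⟨h2.2.1, hw, hb, h⟩)
    have hab : κ (c a b) = k := h2.2.2.2
    rcases hr a b w h2.2.2.1 hb ha with h | h | h
    · rw [h] at hab
      exact absurd hab hcb
    · exact h.symm
    · rw [h] at hab
      exact absurd hab hca

theorem const (hr : NR c) {k : Fin 3} {S : Finset α} {x y w : α}
    (hw : w ∈ S) (hxw : ¬ ReflTransGen (R c k S) x w) (hxy : ReflTransGen (R c k S) x y) (hx : x ∈ S) :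
    c x w = c y w :=
  constG (fun i => i) hr hw hxw hxy hx

theorem claim1 (hs : ∀ a b, c a b = c b a) {k : Fin 3} {S : Finset α} {v z : α}
    (h : ReflTransGen (R c k S) z v) (hz : z ∈ S.erase v) :
    ∃ y ∈ S.erase v, ReflTransGen (R c k (S.erase v)) z y ∧ c v y = k := by
  revert hz
  induction h using ReflTransGen.head_induction_on with
  | refl => intro hz; exact absurd rfl (Finset.ne_of_mem_erase hz)
  | @head a b h1 _ ih =>
    intro hz
    by_cases hb : b = v
    · subst hb
      exact ⟨a, hz, .refl, by rw [hs]; exact h1.2.2.2⟩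
    · have hb' : b ∈ S.erase v := Finset.mem_erase.2 ⟨hb, h1.2.1⟩
      obtain ⟨y, hy, h3, h4⟩ := ih hb'
      exact ⟨y, hy, ReflTransGen.head ⟨hz, hb', h1.2.2.1, h1.2.2.2⟩ h3, h4⟩

theorem nbr {k : Fin 3} {S : Finset α} {v a : α}
    (h : ReflTransGen (R c k S) v a) (hva : v ≠ a) : ∃ x ∈ S.erase v, c v x = k := by
  rcases ReflTransGen.cases_head h with h | ⟨b, h1, _⟩
  · exact absurd h hva
  · exact ⟨b, Finset.mem_erase.2 ⟨h1.2.2.1.symm, h1.2.1⟩, h1.2.2.2⟩

/-- Gallai: a finite complete graph, coloured with three colours without rainbow triangles, is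
disconnected in one of the colours. -/
theorem gallai_fin (hs : ∀ a b, c a b = c b a) (hr : NR c) (S : Finset α) (hS : 1 < S.card) :
    ∃ k, ∃ x ∈ S, ∃ y ∈ S, ¬ ReflTransGen (R c k S) x y := by
  induction S using Finset.strongInduction with
  | H S IH =>
    by_contra hcon
    push Not at hcon
    obtain ⟨v, hv⟩ : S.Nonempty := Finset.card_pos.1 (by omega)
    by_cases hc2 : S.card = 2
    · -- two vertices
      obtain ⟨x, y, hxy, rfl⟩ := Finset.card_eq_two.1 hc2
      obtain ⟨k, hk⟩ : ∃ k : Fin 3, k ≠ c x y := by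
        by_cases h : c x y = 0
        · exact ⟨1, by rw [h]; decide⟩
        · exact ⟨0, fun h' => h h'.symm⟩
      obtain ⟨z, hz, h1⟩ := nbr (hcon k x (by simp) y (by simp)) hxy
      rw [Finset.mem_erase, Finset.mem_insert, Finset.mem_singleton] at hz
      obtain rfl : z = y := by
        rcases hz.2 with h | h
        · exact absurd h hz.1
        · exact h
      exact hk h1.symm
    · have hcard : 1 < (S.erase v).card := by
        rw [Finset.card_erase_of_mem hv]
        omega
      obtain ⟨k, a, ha, b, hb, hab⟩ := IH _ (Finset.erase_ssubset hv) hcard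
      set S' := S.erase v with hS'
      have hsub : ∀ {z}, z ∈ S' → z ∈ S := fun hz => Finset.mem_of_mem_erase hz
      have hne : ∀ {z}, z ∈ S' → z ≠ v := fun hz => Finset.ne_of_mem_erase hz
      -- another component
      have hoth : ∀ x ∈ S', ∃ z ∈ S', ¬ ReflTransGen (R c k S') x z := by
        intro x hx
        by_cases h : ReflTransGen (R c k S') x a
        · exact ⟨b, hb, fun h' => hab ((rtg_symm hs h).trans h')⟩
        · exact ⟨a, ha, h⟩
      have h3c : ∀ k : Fin 3, ∃ p q : Fin 3, p ≠ k ∧ q ≠ k ∧ p ≠ q := by decide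
      obtain ⟨p, q, hpk, hqk, hpq⟩ := h3c k
      obtain ⟨x, hx, hxp⟩ := nbr (hcon p v hv a (hsub ha)) (hne ha).symm
      obtain ⟨x', hx', hxq⟩ := nbr (hcon q v hv a (hsub ha)) (hne ha).symm
      have cl1 : ∀ z ∈ S', ∃ y ∈ S', ReflTransGen (R c k S') z y ∧ c v y = k := fun z hz =>
        claim1 hs (hcon k z (hsub hz) v hv) hz
      have cl2 : ∀ {z y p' : _}, z ∈ S' → y ∈ S' → p' ≠ k → c v z = p' → c v y = k →
          ¬ ReflTransGen (R c k S') z y → c z y = p' := by
        intro z y p' hz hy hp' h1 h2 h3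
        have hzy : z ≠ y := by rintro rfl; exact h3 .refl
        have h4 : c z y ≠ k := fun h => h3 (.single ⟨hz, hy, hzy, h⟩)
        rcases hr v z y (hne hz).symm hzy (hne hy).symm with h | h | h
        · rw [← h, h1]
        · rw [h2] at h; exact absurd h h4
        · rw [h1, h2] at h; exact absurd h hp'
      by_cases hxx : ReflTransGen (R c k S') x x'
      · obtain ⟨z, hz, hxz⟩ := hoth x hx
        obtain ⟨y, hy, hzy, hvy⟩ := cl1 z hz
        have hxy : ¬ ReflTransGen (R c k S') x y := fun h => hxz (h.trans (rtg_symm hs hzy))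
        have hx'y : ¬ ReflTransGen (R c k S') x' y := fun h => hxy (hxx.trans h)
        have e1 := cl2 hx hy hpk hxp hvy hxy
        have e2 := cl2 hx' hy hqk hxq hvy hx'y
        have e3 := const hr hy hxy hxx hx
        exact hpq (by rw [← e1, ← e2, e3])
      · obtain ⟨y, hy, hzy, hvy⟩ := cl1 x' hx'
        obtain ⟨y', hy', hzy', hvy'⟩ := cl1 x hx
        have hxy : ¬ ReflTransGen (R c k S') x y := fun h => hxx (h.trans (rtg_symm hs hzy))
        have hx'y : ¬ ReflTransGen (R c k S') x' y' := fun h =>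
          hxx (rtg_symm hs (h.trans (rtg_symm hs hzy')))
        have e1 := cl2 hx hy hpk hxp hvy hxy
        have e2 := cl2 hx' hy' hqk hxq hvy' hx'y
        have e3 := const hr hx (fun h => hxx (rtg_symm hs h)) hzy hx'
        have e4 := const hr hx' hxx hzy' hx
        rw [hs y x, e1] at e3
        rw [hs y' x', e2, hs x x', e3] at e4
        exact hpq e4

end fin

section gen

variable {α : Type} {C : Type} (c : α → α → C)

/-- the module generated by `x` and `y`, with witnesses in `F` -/
inductive GenIn (F : Set α) (x y : α) : α → Prop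
  | left : GenIn F x y x
  | right : GenIn F x y y
  | step {u v w : α} : GenIn F x y u → GenIn F x y v → w ∈ F → w ≠ u → w ≠ v → c u w ≠ c v w →
      GenIn F x y w

variable {c}

theorem GenIn.mono {F F' : Set α} (h : F ⊆ F') {x y w : α} (hw : GenIn c F x y w) :
    GenIn c F' x y w := by
  induction hw with
  | left => exact .left
  | right => exact .right
  | step _ _ h1 h2 h3 h4 ih1 ih2 => exact .step ih1 ih2 (h h1) h2 h3 h4

theorem GenIn.trans {F : Set α} {x y a b w : α} (ha : GenIn c F x y a) (hb : GenIn c F x y b)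
    (hw : GenIn c F a b w) : GenIn c F x y w := by
  induction hw with
  | left => exact ha
  | right => exact hb
  | step _ _ h1 h2 h3 h4 ih1 ih2 => exact .step ih1 ih2 h1 h2 h3 h4

theorem GenIn.fin {F : Set α} {x y w : α} (hw : GenIn c F x y w) :
    ∃ F' : Set α, F'.Finite ∧ GenIn c F' x y w := by
  induction hw with
  | left => exact ⟨∅, Set.finite_empty, .left⟩
  | right => exact ⟨∅, Set.finite_empty, .right⟩
  | @step u v w _ _ h1 h2 h3 h4 ih1 ih2 =>
    obtain ⟨F1, f1, g1⟩ := ih1
    obtain ⟨F2, f2, g2⟩ := ih2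
    refine ⟨insert w (F1 ∪ F2), (f1.union f2).insert w, .step (g1.mono ?_) (g2.mono ?_)
      (Set.mem_insert _ _) h2 h3 h4⟩
    · exact Set.subset_union_left.trans (Set.subset_insert _ _)
    · exact Set.subset_union_right.trans (Set.subset_insert _ _)

theorem GenIn.sub {F : Set α} {x y w : α} (hw : GenIn c F x y w) : w ∈ insert x (insert y F) := by
  induction hw with
  | left => exact Set.mem_insert _ _
  | right => exact Set.mem_insert_of_mem _ (Set.mem_insert _ _)
  | step _ _ h1 _ _ _ _ _ => exact Set.mem_insert_of_mem _ (Set.mem_insert_of_mem _ h1)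

/-- all modules with two points are everything -/
def Prm (c : α → α → C) : Prop :=
  ∀ Y : Set α, (∀ u ∈ Y, ∀ v ∈ Y, ∀ w ∉ Y, c u w = c v w) → Y.Subsingleton ∨ Y = Set.univ

theorem Prm.gen (h : Prm c) {x y : α} (hxy : x ≠ y) (w : α) : GenIn c Set.univ x y w := by
  rcases h {w | GenIn c Set.univ x y w} (by
    intro u hu v hv w hw
    by_contra hne
    have hu' : GenIn c Set.univ x y u := hu
    have hv' : GenIn c Set.univ x y v := hv
    refine hw (show GenIn c Set.univ x y w from GenIn.step hu' hv' (Set.mem_univ _) ?_ ?_ hne)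
    · rintro rfl; exact hw hu
    · rintro rfl; exact hw hv) with h | h
  · exact absurd (h (show x ∈ _ from GenIn.left) (show y ∈ _ from GenIn.right)) hxy
  · have : w ∈ {w | GenIn c Set.univ x y w} := by rw [h]; trivial
    exact this

end gen

/-- A prime colouring without rainbow triangles has at most two colours. -/
theorem two_colours {α : Type} {C : Type} {c : α → α → C} (hs : ∀ a b, c a b = c b a)
    (hr : NR c) (hp : Prm c) (κ : C → Fin 3) :
    ∃ k, ∀ a b, a ≠ b → κ (c a b) ≠ k := by
  classical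
  by_contra hcon
  push Not at hcon
  choose u v huv hk using hcon
  have hfin : ∀ k l, ∃ F : Set α, F.Finite ∧ GenIn c F (u k) (v k) (u l) ∧
      GenIn c F (u k) (v k) (v l) := by
    intro k l
    obtain ⟨F1, f1, g1⟩ := (hp.gen (huv k) (u l)).fin
    obtain ⟨F2, f2, g2⟩ := (hp.gen (huv k) (v l)).fin
    exact ⟨F1 ∪ F2, f1.union f2, g1.mono Set.subset_union_left, g2.mono Set.subset_union_right⟩
  choose F hF hFu hFv using hfin
  set G : Set α := ⋃ k, ⋃ l, F k l with hG
  have hGf : G.Finite := Set.finite_iUnion fun k => Set.finite_iUnion fun l => hF k l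
  have hsub : ∀ k l, F k l ⊆ G := fun k l =>
    (Set.subset_iUnion (F k) l).trans (Set.subset_iUnion (fun k => ⋃ l, F k l) k)
  have hu : ∀ k l, GenIn c G (u k) (v k) (u l) := fun k l => (hFu k l).mono (hsub k l)
  have hv : ∀ k l, GenIn c G (u k) (v k) (v l) := fun k l => (hFv k l).mono (hsub k l)
  have hM : {w | GenIn c G (u 0) (v 0) w}.Finite :=
    ((hGf.insert (v 0)).insert (u 0)).subset fun w hw => GenIn.sub hw
  set S : Finset α := hM.toFinset with hS
  have hmem : ∀ k w, w ∈ S ↔ GenIn c G (u k) (v k) w := by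
    intro k w
    rw [hS, Set.Finite.mem_toFinset]
    show GenIn c G (u 0) (v 0) w ↔ _
    exact ⟨fun h => GenIn.trans (hu k 0) (hv k 0) h, fun h => GenIn.trans (hu 0 k) (hv 0 k) h⟩
  have hcard : 1 < S.card := Finset.one_lt_card.2
    ⟨u 0, (hmem 0 _).2 .left, v 0, (hmem 0 _).2 .right, huv 0⟩
  set c' : α → α → Fin 3 := fun a b => κ (c a b) with hc'
  have hs' : ∀ a b, c' a b = c' b a := fun a b => by rw [hc']; simp only; rw [hs]
  have hr' : NR c' := by
    intro a b d h1 h2 h3
    rcases hr a b d h1 h2 h3 with h | h | h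
    · exact Or.inl (congrArg κ h)
    · exact Or.inr (Or.inl (congrArg κ h))
    · exact Or.inr (Or.inr (congrArg κ h))
  obtain ⟨k, x, hx, y, hy, hxy⟩ := gallai_fin hs' hr' S hcard
  have huS : u k ∈ S := (hmem k _).2 .left
  have key : ∀ w, GenIn c G (u k) (v k) w → ReflTransGen (R c' k S) (u k) w := by
    intro w hw
    induction hw with
    | left => exact .refl
    | right => exact .single ⟨huS, (hmem k _).2 .right, huv k, hk k⟩
    | @step a b w h1 h2 h3 h4 h5 h6 ih1 ih2 =>
      by_contra hcon
      have hwS : w ∈ S := (hmem k _).2 (.step h1 h2 h3 h4 h5 h6)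
      have e1 := constG κ hr hwS hcon ih1 huS
      have e2 := constG κ hr hwS hcon ih2 huS
      exact h6 (e1.symm.trans e2)
  exact hxy ((rtg_symm hs' (key x ((hmem k x).1 hx))).trans (key y ((hmem k y).1 hy)))

end Pool.Agent.H16VC
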