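import Pool.Agent.H16VC.Transfer

set_option autoImplicit false

/-! Tools for Polish ultrametric spaces. -/

namespace Pool.Agent.H16VC

open Pool.Agent.W889.VC (Dich VCof cont_of_meas)

/-- Transfer of the dichotomy along a reduction with a Borel inverse up to equivalence. -/
theorem transfer2 {X Y : Type} [TopologicalSpace X] [MeasurableSpace X] [BorelSpace X]
    [TopologicalSpace Y] [SecondCountableTopology Y] [MeasurableSpace Y] [BorelSpace Y]
    {E' : X → X → Prop} {E : Y → Y → Prop} {K' : X → Prop} {K : Y → Prop}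
    (φ : Y → X) (ψ : X → Y) (hψ : Measurable ψ) (C : X → Prop) (hC : MeasurableSet {x | C x})
    (hs : ∀ x y, E' x y → E' y x) (ht : ∀ x y z, E' x y → E' y z → E' x z)
    (hCi : ∀ x y, E' x y → C x → C y)
    (h1 : ∀ y, K y → C (φ y)) (h2 : ∀ x, C x → K (ψ x)) (h3 : ∀ x, C x → E' (φ (ψ x)) x)
    (h4 : ∀ y z, K y → K z → (E y z ↔ E' (φ y) (φ z)))
    (hK : ∀ x, C x → K' x) (h : VCof True E' K') : VCof True E K := by
  intro B hB hinv hBK
  have hstep : ∀ x y, E' x y → C x ∧ ψ x ∈ B → C y ∧ ψ y ∈ B := by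
    rintro x y hxy ⟨hx, hxB⟩
    have hy := hCi x y hxy hx
    refine ⟨hy, (hinv _ _ ?_).1 hxB⟩
    rw [h4 _ _ (h2 x hx) (h2 y hy)]
    exact ht _ _ _ (ht _ _ _ (h3 x hx) hxy) (hs _ _ (h3 y hy))
  rcases h {x | C x ∧ ψ x ∈ B} (hC.inter (hψ hB))
    (fun x y hxy => ⟨hstep x y hxy, hstep y x (hs _ _ hxy)⟩) (fun x hx => hK x hx.1) with
    ⟨f, hf⟩ | ⟨g, g1, g2, g3⟩
  · left
    refine ⟨fun n => ψ (f n), fun y hy => ?_⟩
    have hKy := hBK y hy
    have hCy := h1 y hKy
    have e1 : E' (φ (ψ (φ y))) (φ y) := h3 _ hCy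
    have e2 : E (ψ (φ y)) y := (h4 _ _ (h2 _ hCy) hKy).2 e1
    obtain ⟨n, hn⟩ := hf (φ y) ⟨hCy, (hinv _ _ e2).2 hy⟩
    have hCn : C (f n) := hCi _ _ (hs _ _ hn) hCy
    exact ⟨n, (h4 _ _ (h2 _ hCn) hKy).2 (ht _ _ _ (h3 _ hCn) hn)⟩
  · right
    have hm : Measurable (fun c => ψ (g c)) := hψ.comp (g1 trivial).measurable
    obtain ⟨k, hk1, hk2⟩ := cont_of_meas hm
    refine ⟨_, fun _ => hk2, fun c => (g2 (k c)).2, fun c d hcd => hk1 (g3 _ _ ?_)⟩
    have hc := (g2 (k c)).1
    have hd := (g2 (k d)).1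
    have h5 : E' (φ (ψ (g (k c)))) (φ (ψ (g (k d)))) := (h4 _ _ (h2 _ hc) (h2 _ hd)).1 hcd
    exact ht _ _ _ (hs _ _ (h3 _ hc)) (ht _ _ _ h5 (h3 _ hd))

/-- Two maps with the same range and infinite fibres are conjugate by a permutation. -/
theorem match_perm {Q : Type} (c c' : ℕ → Q) (hr : ∀ u, ∃ v, c' v = c u)
    (hr' : ∀ v, ∃ u, c u = c' v) (hi : ∀ u, {v | c v = c u}.Infinite)
    (hi' : ∀ u, {v | c' v = c' u}.Infinite) : ∃ σ : Equiv.Perm ℕ, ∀ u, c' (σ u) = c u := by
  have key : ∀ q, Nonempty ({u // c u = q} ≃ {v // c' v = q}) := by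
    intro q
    by_cases h : ∃ u, c u = q
    · obtain ⟨u, rfl⟩ := h
      obtain ⟨v, hv⟩ := hr u
      have i1 : Infinite {v // c v = c u} := (hi u).to_subtype
      have i2 : Infinite {w // c' w = c u} := by
        rw [← hv]
        exact (hi' v).to_subtype
      exact nonempty_equiv_of_countable
    · have i1 : IsEmpty {u // c u = q} := ⟨fun x => h ⟨x.1, x.2⟩⟩
      have i2 : IsEmpty {v // c' v = q} := ⟨fun x => by
        obtain ⟨u, hu⟩ := hr' x.1
        exact h ⟨u, hu.trans x.2⟩⟩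
      exact ⟨Equiv.equivOfIsEmpty _ _⟩
  have F : ∀ q, {u // c u = q} ≃ {v // c' v = q} := fun q => Classical.choice (key q)
  refine ⟨((Equiv.sigmaFiberEquiv c).symm.trans (Equiv.sigmaCongrRight F)).trans
    (Equiv.sigmaFiberEquiv c'), fun u => ?_⟩
  have h1 : (Equiv.sigmaFiberEquiv c).symm u = ⟨c u, ⟨u, rfl⟩⟩ := rfl
  show c' ((Equiv.sigmaFiberEquiv c') ((Equiv.sigmaCongrRight F) ((Equiv.sigmaFiberEquiv c).symm u)))
    = c u
  rw [h1]
  exact (F (c u) ⟨u, rfl⟩).2

theorem meas_sInf {W : Type} [MeasurableSpace W] (p : W → ℕ → Prop)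
    (hp : ∀ n, MeasurableSet {w | p w n}) : Measurable (fun w => sInf {n | p w n}) := by
  refine measurable_to_countable' fun n => ?_
  have h : (fun w => sInf {n | p w n}) ⁻¹' {n} =
      ({w | p w n} ∩ ⋂ m, ⋂ (_ : m < n), {w | p w m}ᶜ) ∪ ({w | n = 0} ∩ ⋂ m, {w | p w m}ᶜ) := by
    ext w
    simp only [Set.mem_preimage, Set.mem_singleton_iff, Set.mem_union, Set.mem_inter_iff,
      Set.mem_setOf_eq, Set.mem_iInter, Set.mem_compl_iff]
    constructor
    · intro h
      by_cases hne : {n | p w n}.Nonempty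
      · left
        rw [← h]
        exact ⟨Nat.sInf_mem hne, fun m hm => Nat.notMem_of_lt_sInf hm⟩
      · right
        rw [Set.not_nonempty_iff_eq_empty] at hne
        rw [hne, Nat.sInf_empty] at h
        exact ⟨h.symm, fun m hm => by
          have : m ∈ {n | p w n} := hm
          rw [hne] at this
          exact this⟩
    · rintro (⟨h1, h2⟩ | ⟨h1, h2⟩)
      · refine le_antisymm (Nat.sInf_le h1) ?_
        by_contra hlt
        push Not at hlt
        have h3 : sInf {n | p w n} ∈ {n | p w n} := Nat.sInf_mem ⟨n, h1⟩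
        exact h2 _ hlt h3
      · have : {n | p w n} = ∅ := by
          ext m
          exact ⟨fun hm => h2 m hm, fun hm => hm.elim⟩
        rw [this, Nat.sInf_empty, h1]
  rw [h]
  exact ((hp n).inter (MeasurableSet.iInter fun m => MeasurableSet.iInter fun _ => (hp m).compl)).union
    ((MeasurableSet.const _).inter (MeasurableSet.iInter fun m => (hp m).compl))

theorem meas_diag {W β : Type} [MeasurableSpace W] [MeasurableSpace β] (F : ℕ → W → β)
    (hF : ∀ n, Measurable (F n)) (f : W → ℕ) (hf : Measurable f) :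
    Measurable (fun w => F (f w) w) := by
  have h1 : Measurable (fun p : ℕ × W => F p.1 p.2) :=
    measurable_from_prod_countable_right fun n => hF n
  exact h1.comp (hf.prodMk measurable_id)

end Pool.Agent.H16VC
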