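import Pool.Agent.H16VC.PU1
import Pool.Agent.Results.MP_5607ba_lc.HyperbolicIsometries

set_option autoImplicit false

/-! Labelled hyperbolic metrics. -/

namespace Pool.Agent.H16VC.PU

open Pool.Agent.W889.VC (VCof)

/-- distances and labels -/
abbrev W : Type := (ℕ → ℕ → ℝ) × (ℕ → ℕ → Bool)

def WIso (x y : W) : Prop :=
  ∃ σ : Equiv.Perm ℕ, (∀ a b, y.1 (σ a) (σ b) = x.1 a b) ∧ ∀ i m, y.2 i (σ m) = x.2 i m

structure Hyp (x : W) : Prop where
  zero : ∀ a b, x.1 a b = 0 ↔ a = b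
  symm : ∀ a b, x.1 a b = x.1 b a
  four : ∀ a b c d, x.1 a b + x.1 c d ≤ max (x.1 a c + x.1 b d) (x.1 a d + x.1 b c)

theorem WIso.symm {x y : W} (h : WIso x y) : WIso y x := by
  obtain ⟨σ, h1, h2⟩ := h
  exact ⟨σ.symm, fun a b => by rw [← h1, σ.apply_symm_apply, σ.apply_symm_apply],
    fun i m => by rw [← h2, σ.apply_symm_apply]⟩

theorem WIso.trans {x y z : W} (h : WIso x y) (h' : WIso y z) : WIso x z := by
  obtain ⟨σ, h1, h2⟩ := h
  obtain ⟨τ, h3, h4⟩ := h'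
  exact ⟨σ.trans τ, fun a b => by
    rw [Equiv.trans_apply, Equiv.trans_apply, h3, h1], fun i m => by
    rw [Equiv.trans_apply, h4, h2]⟩

abbrev S1 : Type := (ℕ → ℕ → ℝ) × (Unit → ℕ → ℕ) × (ℕ → ℕ → Bool)

theorem borel_W : BorelSpace W := by
  have b0 : BorelSpace (ℕ → ℝ) := Pi.borelSpace
  have b1 : BorelSpace (ℕ → ℕ → ℝ) := Pi.borelSpace
  have b4 : BorelSpace (ℕ → Bool) := Pi.borelSpace
  have b5 : BorelSpace (ℕ → ℕ → Bool) := Pi.borelSpace
  exact Prod.borelSpace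

theorem borel_S1 : BorelSpace S1 := by
  have b0 : BorelSpace (ℕ → ℝ) := Pi.borelSpace
  have b1 : BorelSpace (ℕ → ℕ → ℝ) := Pi.borelSpace
  have b2 : BorelSpace (ℕ → ℕ) := Pi.borelSpace
  have b3 : BorelSpace (Unit → ℕ → ℕ) := Pi.borelSpace
  have b4 : BorelSpace (ℕ → Bool) := Pi.borelSpace
  have b5 : BorelSpace (ℕ → ℕ → Bool) := Pi.borelSpace
  have b6 : BorelSpace ((Unit → ℕ → ℕ) × (ℕ → ℕ → Bool)) := Prod.borelSpace
  exact Prod.borelSpace

theorem polish_W : PolishSpace W := by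
  haveI := polish_bool
  exact polish_prod

theorem cs_of {X : Type} [TopologicalSpace X] [SecondCountableTopology X] [T0Space X]
    [MeasurableSpace X] [BorelSpace X] : MeasurableSpace.CountablySeparated X := inferInstance

theorem vc_W : VCof True WIso Hyp := by
  have h : VCof True (fun x y : S1 => ∃ σ, Results.MP_5607ba_lc.HyperbolicIsometries.IsIso σ x y)
      (fun x => Results.MP_5607ba_lc.HyperbolicIsometries.HyperbolicAction x) := by
    intro B hB hinv hK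
    rcases Results.MP_5607ba_lc.HyperbolicIsometries.result Unit B hB hK
      (fun x hx y σ h => (hinv x y ⟨σ, h⟩).1 hx) with ⟨f, hf⟩ | ⟨g, h1, h2, h3⟩
    · exact Or.inl ⟨f, hf⟩
    · exact Or.inr ⟨g, fun _ => h1, h2, h3⟩
  haveI := borel_W
  haveI := borel_S1
  haveI := polish_W
  have t1 : T0Space S1 := inferInstance
  have t2 : SecondCountableTopology S1 := inferInstance
  have t3 : MeasurableSpace.CountablySeparated S1 := cs_of
  refine transfer (fun d : W => ((d.1, fun _ m => m, d.2) : S1))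
    (measurable_fst.prodMk (measurable_const.prodMk measurable_snd)) ?_ ?_ ?_ ?_ ?_
    (fun y hy => ?_) h
  · rintro ⟨d, p⟩ ⟨d', p'⟩ hdd
    rw [Prod.mk.injEq, Prod.mk.injEq] at hdd
    rw [Prod.mk.injEq]
    exact ⟨hdd.1, hdd.2.2⟩
  · rintro x y ⟨σ, h1, h2, h3⟩
    refine ⟨σ.symm, fun m n => ?_, fun γ m => ?_, fun i m => ?_⟩
    · rw [← h1, σ.apply_symm_apply, σ.apply_symm_apply]
    · rw [Equiv.eq_symm_apply, ← h2, σ.apply_symm_apply]
    · rw [← h3, σ.apply_symm_apply]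
  · exact fun x y h => h.symm
  · rintro x y ⟨σ, hσ, hσ'⟩
    exact ⟨σ, hσ, fun _ _ => rfl, hσ'⟩
  · rintro x ⟨y, y', y''⟩ ⟨σ, h1, h2, h3⟩
    refine ⟨(y, y''), ?_, σ, h1, h3⟩
    have e1 : y' = fun _ m => m := by
      funext γ m
      have := h2 γ (σ.symm m)
      rw [σ.apply_symm_apply] at this
      exact this
    rw [e1]
  · exact ⟨hy.zero, hy.symm, hy.four, fun _ => rfl, fun _ _ _ => rfl, fun _ _ _ => rfl⟩

end Pool.Agent.H16VC.PU
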