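import Pool.Agent.H16VC.PU2

set_option autoImplicit false

/-! The class of the codes of the ball structures, and decoding. -/

namespace Pool.Agent.H16VC.PU

open Pool.Agent.W889.VC (VCof)

/-- radii -/
noncomputable def r (n : ℕ) : ℝ := (1 / 2 : ℝ) ^ n

theorem r_pos (n : ℕ) : 0 < r n := by unfold r; positivity

theorem r_anti {m n : ℕ} (h : m ≤ n) : r n ≤ r m :=
  pow_le_pow_of_le_one (by norm_num) (by norm_num) h

theorem r_inj {m n : ℕ} (h : r m = r n) : m = n := by
  unfold r at h
  exact pow_right_injective₀ (by norm_num) (by norm_num) h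

/-- the label of a point -/
noncomputable def lab (w : W) (s : ℕ) : ℕ := sInf {n | w.2 n s = true}

/-- the joint radius of two points -/
noncomputable def dl (w : W) (s t : ℕ) : ℝ :=
  if s = t then r (lab w s) else (w.1 s t - 2 + r (lab w s) + r (lab w t)) / 2

/-- the class of the codes -/
structure Cls (w : W) : Prop where
  hyp : Hyp w
  lab_iff : ∀ s n, w.2 n s = true ↔ n = lab w s
  symm : ∀ s t, dl w s t = dl w t s
  ge : ∀ s t, r (lab w s) ≤ dl w s t
  ultra : ∀ s t u, dl w s u ≤ max (dl w s t) (dl w t u)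
  inf : ∀ s N, ∃ t, N < t ∧ lab w t = lab w s ∧ dl w s t = r (lab w s)
  child : ∀ s, ∃ t, lab w t = lab w s + 1 ∧ dl w s t = r (lab w s)
  anc : ∀ s n, n < lab w s → ∃ t, lab w t = n ∧ dl w s t = r n

theorem lab_iso {x y : W} {σ : Equiv.Perm ℕ} (h : ∀ i m, y.2 i (σ m) = x.2 i m) (s : ℕ) :
    lab y (σ s) = lab x s := by
  unfold lab
  simp only [h]

theorem dl_iso {x y : W} {σ : Equiv.Perm ℕ} (h : ∀ a b, y.1 (σ a) (σ b) = x.1 a b)
    (h' : ∀ i m, y.2 i (σ m) = x.2 i m) (s t : ℕ) :
    dl y (σ s) (σ t) = dl x s t := by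
  unfold dl
  rw [lab_iso h', lab_iso h', h]
  simp only [σ.injective.eq_iff]

theorem Cls.iso {x y : W} (h : WIso x y) (hx : Cls x) : Cls y := by
  obtain ⟨σ, h1, h2⟩ := h
  have hl := fun s => lab_iso h2 s
  have hd := fun s t => dl_iso h1 h2 s t
  have ex : ∀ v, ∃ u, σ u = v := fun v => ⟨σ.symm v, σ.apply_symm_apply v⟩
  refine ⟨⟨?_, ?_, ?_⟩, ?_, ?_, ?_, ?_, ?_, ?_, ?_⟩
  · intro a b
    obtain ⟨a, rfl⟩ := ex a
    obtain ⟨b, rfl⟩ := ex b
    rw [h1, hx.hyp.zero, σ.injective.eq_iff]
  · intro a b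
    obtain ⟨a, rfl⟩ := ex a
    obtain ⟨b, rfl⟩ := ex b
    rw [h1, h1, hx.hyp.symm]
  · intro a b c d
    obtain ⟨a, rfl⟩ := ex a
    obtain ⟨b, rfl⟩ := ex b
    obtain ⟨c, rfl⟩ := ex c
    obtain ⟨d, rfl⟩ := ex d
    rw [h1, h1, h1, h1, h1, h1]
    exact hx.hyp.four a b c d
  · intro s n
    obtain ⟨s, rfl⟩ := ex s
    rw [h2, hl]
    exact hx.lab_iff s n
  · intro s t
    obtain ⟨s, rfl⟩ := ex s
    obtain ⟨t, rfl⟩ := ex t
    rw [hd, hd, hx.symm]
  · intro s t
    obtain ⟨s, rfl⟩ := ex s
    obtain ⟨t, rfl⟩ := ex t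
    rw [hd, hl]
    exact hx.ge s t
  · intro s t u
    obtain ⟨s, rfl⟩ := ex s
    obtain ⟨t, rfl⟩ := ex t
    obtain ⟨u, rfl⟩ := ex u
    rw [hd, hd, hd]
    exact hx.ultra s t u
  · intro s N
    obtain ⟨s, rfl⟩ := ex s
    have hinf : {t | lab x t = lab x s ∧ dl x s t = r (lab x s)}.Infinite := by
      refine Set.infinite_of_not_bddAbove fun hb => ?_
      obtain ⟨M, hM⟩ := hb
      obtain ⟨t, ht, ht1⟩ := hx.inf s M
      exact absurd (hM ht1) (not_le.2 ht)
    have hinf2 : (σ '' {t | lab x t = lab x s ∧ dl x s t = r (lab x s)}).Infinite :=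
      hinf.image σ.injective.injOn
    obtain ⟨v, ⟨t, ht, rfl⟩, hv⟩ := hinf2.exists_gt N
    exact ⟨σ t, hv, by rw [hl, hl]; exact ht.1, by rw [hd, hl]; exact ht.2⟩
  · intro s
    obtain ⟨s, rfl⟩ := ex s
    obtain ⟨t, ht1, ht2⟩ := hx.child s
    exact ⟨σ t, by rw [hl, hl]; exact ht1, by rw [hd, hl]; exact ht2⟩
  · intro s n hn
    obtain ⟨s, rfl⟩ := ex s
    rw [hl] at hn
    obtain ⟨t, ht1, ht2⟩ := hx.anc s n hn
    exact ⟨σ t, by rw [hl]; exact ht1, by rw [hd]; exact ht2⟩

/-! ### measurability -/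

theorem meas_lab (s : ℕ) : Measurable fun w : W => lab w s := by
  unfold lab
  refine meas_sInf (fun (w : W) n => w.2 n s = true) fun n => ?_
  have h : Measurable fun w : W => w.2 n s :=
    (measurable_pi_apply s).comp ((measurable_pi_apply n).comp measurable_snd)
  exact h (measurableSet_singleton true)

theorem meas_r (s : ℕ) : Measurable fun w : W => r (lab w s) :=
  (measurable_of_countable r).comp (meas_lab s)

theorem meas_fst (s t : ℕ) : Measurable fun w : W => w.1 s t :=
  (measurable_pi_apply t).comp ((measurable_pi_apply s).comp measurable_fst)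

theorem meas_dl (s t : ℕ) : Measurable fun w : W => dl w s t := by
  unfold dl
  by_cases h : s = t
  · simp only [h, if_true]
    exact meas_r t
  · simp only [h, if_false]
    exact ((((meas_fst s t).sub_const 2).add (meas_r s)).add (meas_r t)).div_const 2

theorem meas_lab_eq (s n : ℕ) : MeasurableSet {w : W | lab w s = n} :=
  meas_lab s (measurableSet_singleton n)

theorem meas_cls : MeasurableSet {w : W | Cls w} := by
  have e : {w : W | Cls w} =
      ({w : W | ∀ a b, w.1 a b = 0 ↔ a = b} ∩ {w : W | ∀ a b, w.1 a b = w.1 b a} ∩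
      {w : W | ∀ a b c d, w.1 a b + w.1 c d ≤ max (w.1 a c + w.1 b d) (w.1 a d + w.1 b c)}) ∩
      ({w : W | ∀ s n, w.2 n s = true ↔ n = lab w s} ∩ {w : W | ∀ s t, dl w s t = dl w t s} ∩
      {w : W | ∀ s t, r (lab w s) ≤ dl w s t} ∩
      {w : W | ∀ s t u, dl w s u ≤ max (dl w s t) (dl w t u)}) ∩
      ({w : W | ∀ s N, ∃ t, N < t ∧ lab w t = lab w s ∧ dl w s t = r (lab w s)} ∩
      {w : W | ∀ s, ∃ t, lab w t = lab w s + 1 ∧ dl w s t = r (lab w s)} ∩
      {w : W | ∀ s n, n < lab w s → ∃ t, lab w t = n ∧ dl w s t = r n}) := by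
    ext w
    constructor
    · intro h
      exact ⟨⟨⟨⟨h.hyp.zero, h.hyp.symm⟩, h.hyp.four⟩, ⟨⟨h.lab_iff, h.symm⟩, h.ge⟩, h.ultra⟩,
        ⟨h.inf, h.child⟩, h.anc⟩
    · rintro ⟨⟨⟨⟨h1, h2⟩, h3⟩, ⟨⟨h4, h5⟩, h6⟩, h7⟩, ⟨h8, h9⟩, h10⟩
      exact ⟨⟨h1, h2, h3⟩, h4, h5, h6, h7, h8, h9, h10⟩
  rw [e]
  have A : ∀ {p : ℕ → W → Prop}, (∀ i, MeasurableSet {w | p i w}) → MeasurableSet {w | ∀ i, p i w} :=
    fun h => by
      rw [Set.setOf_forall]
      exact MeasurableSet.iInter h
  have Ex : ∀ {p : ℕ → W → Prop}, (∀ i, MeasurableSet {w | p i w}) → MeasurableSet {w | ∃ i, p i w} :=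
    fun h => by
      rw [Set.setOf_exists]
      exact MeasurableSet.iUnion h
  have m0 : ∀ s t, MeasurableSet {w : W | w.1 s t = 0} := fun s t =>
    meas_fst s t (measurableSet_singleton 0)
  have m2 : ∀ s n, MeasurableSet {w : W | w.2 n s = true} := by
    intro s n
    have h : Measurable fun w : W => w.2 n s :=
      (measurable_pi_apply s).comp ((measurable_pi_apply n).comp measurable_snd)
    exact h (measurableSet_singleton true)
  have hll : ∀ s t (k : ℕ), MeasurableSet {w : W | lab w t = lab w s + k} := by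
    intro s t k
    exact measurableSet_eq_fun (meas_lab t) ((measurable_of_countable (fun n : ℕ => n + k)).comp (meas_lab s))
  refine ((((?_ : MeasurableSet _).inter ?_).inter ?_).inter
    ((((?_ : MeasurableSet _).inter ?_).inter ?_).inter ?_)).inter ((?_ : MeasurableSet _).inter ?_ |>.inter ?_)
  · refine A fun a => A fun b => ?_
    by_cases h : a = b
    · simp only [h, iff_true]
      exact m0 b b
    · simp only [h, iff_false]
      exact (m0 a b).compl
  · exact A fun a => A fun b => measurableSet_eq_fun (meas_fst a b) (meas_fst b a)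
  · exact A fun a => A fun b => A fun c => A fun d =>
      measurableSet_le ((meas_fst a b).add (meas_fst c d))
        (((meas_fst a c).add (meas_fst b d)).max ((meas_fst a d).add (meas_fst b c)))
  · refine A fun s => A fun n => ?_
    have h1 : MeasurableSet {w : W | n = lab w s} := by
      have : {w : W | n = lab w s} = {w : W | lab w s = n} := by
        ext w
        exact eq_comm
      rw [this]
      exact meas_lab_eq s n
    have h2 : {w : W | w.2 n s = true ↔ n = lab w s} =
        ({w : W | w.2 n s = true} ∩ {w : W | n = lab w s}) ∪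
        ({w : W | w.2 n s = true}ᶜ ∩ {w : W | n = lab w s}ᶜ) := by
      ext w
      exact iff_iff_and_or_not_and_not
    rw [h2]
    exact ((m2 s n).inter h1).union ((m2 s n).compl.inter h1.compl)
  · exact A fun a => A fun b => measurableSet_eq_fun (meas_dl a b) (meas_dl b a)
  · exact A fun a => A fun b => measurableSet_le (meas_r a) (meas_dl a b)
  · exact A fun a => A fun b => A fun c =>
      measurableSet_le (meas_dl a c) ((meas_dl a b).max (meas_dl b c))
  · refine A fun s => A fun N => Ex fun t => ?_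
    exact (MeasurableSet.const _).inter ((hll s t 0).inter (measurableSet_eq_fun (meas_dl s t) (meas_r s)))
  · refine A fun s => Ex fun t => ?_
    exact (hll s t 1).inter (measurableSet_eq_fun (meas_dl s t) (meas_r s))
  · refine A fun s => A fun n => ?_
    have h1 : MeasurableSet {w : W | n < lab w s} :=
      measurableSet_lt measurable_const (meas_lab s)
    have h2 : MeasurableSet {w : W | ∃ t, lab w t = n ∧ dl w s t = r n} :=
      Ex fun t => (meas_lab_eq t n).inter (measurableSet_eq_fun (meas_dl s t) measurable_const)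
    have h3 : {w : W | n < lab w s → ∃ t, lab w t = n ∧ dl w s t = r n} =
        {w : W | n < lab w s}ᶜ ∪ {w : W | ∃ t, lab w t = n ∧ dl w s t = r n} := by
      ext w
      exact imp_iff_not_or
    rw [h3]
    exact h1.compl.union h2

/-- the least child -/
noncomputable def chl (w : W) (s : ℕ) : ℕ :=
  sInf {t | lab w t = lab w s + 1 ∧ dl w s t = r (lab w s)}

/-- the branch of least children -/
noncomputable def br (w : W) (s : ℕ) : ℕ → ℕ
  | 0 => s
  | k + 1 => chl w (br w s k)

theorem meas_chl (s : ℕ) : Measurable fun w : W => chl w s := by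
  unfold chl
  refine meas_sInf (fun (w : W) t => lab w t = lab w s + 1 ∧ dl w s t = r (lab w s)) fun t => ?_
  exact (measurableSet_eq_fun (meas_lab t)
    ((measurable_of_countable (fun n : ℕ => n + 1)).comp (meas_lab s))).inter
    (measurableSet_eq_fun (meas_dl s t) (meas_r s))

theorem meas_br (s k : ℕ) : Measurable fun w : W => br w s k := by
  induction k with
  | zero => exact measurable_const
  | succ k ih => exact meas_diag (fun n w => chl w n) meas_chl (fun w => br w s k) ih

/-- the decoded distance -/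
noncomputable def psi (w : W) (s t : ℕ) : ℝ :=
  ⨅ k : ℕ, dl w (br w s (lab w t + k)) (br w t (lab w s + k))

theorem meas_psi : Measurable psi := by
  refine measurable_pi_iff.2 fun s => measurable_pi_iff.2 fun t => ?_
  unfold psi
  refine Measurable.iInf fun k => ?_
  have h1 : ∀ s t : ℕ, Measurable fun w : W => br w s (lab w t + k) := fun s t =>
    meas_diag (fun n w => br w s (n + k)) (fun n => meas_br s (n + k)) (fun w => lab w t) (meas_lab t)
  refine meas_diag (fun n w => dl w n (br w t (lab w s + k))) (fun n => ?_)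
    (fun w => br w s (lab w t + k)) (h1 s t)
  exact meas_diag (fun m w => dl w n m) (fun m => meas_dl n m) (fun w => br w t (lab w s + k))
    (h1 t s)

end Pool.Agent.H16VC.PU
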