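import Pool.Agent.H16VC.PU3

set_option autoImplicit false

/-! Branches, and decoding the ball structure. -/

namespace Pool.Agent.H16VC.PU

variable {w : W}

theorem dl_self (w : W) (s : ℕ) : dl w s s = r (lab w s) := by
  unfold dl
  rw [if_pos rfl]

theorem Cls.ge' (h : Cls w) (s t : ℕ) : r (lab w t) ≤ dl w s t := by
  rw [h.symm]
  exact h.ge t s

theorem Cls.chl (h : Cls w) (s : ℕ) :
    lab w (chl w s) = lab w s + 1 ∧ dl w s (PU.chl w s) = r (lab w s) :=
  Nat.sInf_mem (s := {t | lab w t = lab w s + 1 ∧ dl w s t = r (lab w s)}) (h.child s)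

theorem Cls.lab_br (h : Cls w) (s k : ℕ) : lab w (br w s k) = lab w s + k := by
  induction k with
  | zero => rfl
  | succ k ih =>
    show lab w (PU.chl w (br w s k)) = _
    rw [(h.chl _).1, ih]
    ring

theorem Cls.dl_br_succ (h : Cls w) (s k : ℕ) :
    dl w (br w s k) (br w s (k + 1)) = r (lab w s + k) := by
  show dl w (br w s k) (PU.chl w (br w s k)) = _
  rw [(h.chl _).2, h.lab_br]

theorem Cls.dl_br (h : Cls w) (s i k : ℕ) :
    dl w (br w s i) (br w s (i + k)) = r (lab w s + i) := by
  induction k with
  | zero => rw [add_zero, dl_self, h.lab_br]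
  | succ k ih =>
    apply le_antisymm
    · refine (h.ultra _ (br w s (i + k)) _).trans (max_le ih.le ?_)
      have := h.dl_br_succ s (i + k)
      rw [add_assoc] at this
      rw [this]
      exact r_anti (by omega)
    · have := h.ge (br w s i) (br w s (i + (k + 1)))
      rwa [h.lab_br] at this

/-- the distance of the branches at level `lab s + lab t + k` -/
noncomputable def Dk (w : W) (s t k : ℕ) : ℝ := dl w (br w s (lab w t + k)) (br w t (lab w s + k))

theorem Cls.Dk_ge (h : Cls w) (s t k : ℕ) : r (lab w s + lab w t + k) ≤ Dk w s t k := by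
  have := h.ge (br w s (lab w t + k)) (br w t (lab w s + k))
  rw [h.lab_br, ← add_assoc] at this
  exact this

theorem Cls.Dk_succ_le (h : Cls w) (s t k : ℕ) : Dk w s t (k + 1) ≤ Dk w s t k := by
  have e1 := h.dl_br_succ s (lab w t + k)
  have e2 := h.dl_br_succ t (lab w s + k)
  have h0 := h.Dk_ge s t k
  unfold Dk at h0 ⊢
  refine (h.ultra _ (br w s (lab w t + k)) _).trans (max_le ?_ ?_)
  · rw [h.symm]
    show dl w (br w s (lab w t + k)) (br w s (lab w t + k + 1)) ≤ _
    rw [e1, ← add_assoc]
    exact h0
  · refine (h.ultra _ (br w t (lab w s + k)) _).trans (max_le le_rfl ?_)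
    show dl w (br w t (lab w s + k)) (br w t (lab w s + k + 1)) ≤ _
    rw [e2, ← add_assoc, add_comm (lab w t)]
    exact h0

theorem Cls.Dk_le (h : Cls w) (s t k : ℕ) :
    Dk w s t k ≤ max (r (lab w s + lab w t + k)) (Dk w s t (k + 1)) := by
  have e1 := h.dl_br_succ s (lab w t + k)
  have e2 := h.dl_br_succ t (lab w s + k)
  rw [← add_assoc] at e1 e2
  rw [add_comm (lab w t)] at e2
  unfold Dk
  refine (h.ultra _ (br w s (lab w t + k + 1)) _).trans (max_le ?_ ?_)
  · rw [e1]
    exact le_max_left _ _
  · refine (h.ultra _ (br w t (lab w s + k + 1)) _).trans (max_le ?_ ?_)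
    · exact le_max_right _ _
    · rw [h.symm, e2]
      exact le_max_left _ _

theorem Cls.bdd (h : Cls w) (s t : ℕ) : BddBelow (Set.range (Dk w s t)) := by
  refine ⟨0, ?_⟩
  rintro _ ⟨k, rfl⟩
  exact (r_pos _).le.trans (h.Dk_ge s t k)

theorem Cls.psi_le (h : Cls w) (s t k : ℕ) : psi w s t ≤ Dk w s t k := ciInf_le (h.bdd s t) k

theorem Cls.psi_nonneg (h : Cls w) (s t : ℕ) : 0 ≤ psi w s t :=
  le_ciInf fun k => (r_pos _).le.trans (h.Dk_ge s t k)

theorem Cls.Dk_eq (h : Cls w) (s t k : ℕ) :
    Dk w s t k = max (r (lab w s + lab w t + k)) (psi w s t) := by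
  apply le_antisymm
  · by_contra hlt
    push Not at hlt
    have h1 : r (lab w s + lab w t + k) < Dk w s t k := (le_max_left _ _).trans_lt hlt
    have h2 : psi w s t < Dk w s t k := (le_max_right _ _).trans_lt hlt
    have key : ∀ j, Dk w s t k ≤ Dk w s t (k + j) := by
      intro j
      induction j with
      | zero => exact le_rfl
      | succ j ih =>
        rcases le_max_iff.1 (h.Dk_le s t (k + j)) with h3 | h3
        · have : r (lab w s + lab w t + (k + j)) ≤ r (lab w s + lab w t + k) := r_anti (by omega)
          linarith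
        · exact ih.trans h3
    have key2 : ∀ i j, i ≤ j → Dk w s t j ≤ Dk w s t i := by
      intro i j hij
      induction j, hij using Nat.le_induction with
      | base => exact le_rfl
      | succ j _ ih => exact (h.Dk_succ_le s t j).trans ih
    refine absurd h2 (not_lt.2 (le_ciInf fun i => ?_))
    show Dk w s t k ≤ Dk w s t i
    rcases le_total k i with hi | hi
    · obtain ⟨j, rfl⟩ := Nat.exists_eq_add_of_le hi
      exact key j
    · exact key2 i k hi
  · exact max_le (h.Dk_ge s t k) (h.psi_le s t k)

/-- a ball around `s` at level `n` -/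
noncomputable def node (w : W) (s n : ℕ) : ℕ :=
  if lab w s ≤ n then br w s (n - lab w s) else sInf {t | lab w t = n ∧ dl w s t = r n}

theorem Cls.node_br (h : Cls w) {s n : ℕ} (hn : lab w s ≤ n) : node w s n = br w s (n - lab w s) :=
  if_pos hn

theorem Cls.node_anc (h : Cls w) {s n : ℕ} (hn : n < lab w s) :
    lab w (node w s n) = n ∧ dl w s (node w s n) = r n := by
  have e : node w s n = sInf {t | lab w t = n ∧ dl w s t = r n} := if_neg (not_le.2 hn)
  rw [e]
  exact Nat.sInf_mem (s := {t | lab w t = n ∧ dl w s t = r n}) (h.anc s n hn)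

theorem Cls.lab_node (h : Cls w) (s n : ℕ) : lab w (node w s n) = n := by
  rcases le_or_gt (lab w s) n with hn | hn
  · rw [h.node_br hn, h.lab_br]
    omega
  · exact (h.node_anc hn).1

theorem Cls.node_self (h : Cls w) (s : ℕ) : node w s (lab w s) = s := by
  rw [h.node_br le_rfl, Nat.sub_self]
  rfl

theorem Cls.dl_node (h : Cls w) (s n : ℕ) :
    dl w s (node w s n) = max (r (lab w s)) (r n) := by
  rcases le_or_gt (lab w s) n with hn | hn
  · rw [h.node_br hn, max_eq_left (r_anti hn)]
    have := h.dl_br s 0 (n - lab w s)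
    rwa [zero_add] at this
  · rw [(h.node_anc hn).2, max_eq_right (r_anti hn.le)]

theorem Cls.node_node (h : Cls w) (s n m : ℕ) :
    dl w (node w s n) (node w s m) = max (r n) (r m) := by
  wlog hnm : n ≤ m generalizing n m
  · rw [h.symm, this m n (by omega), max_comm]
  rw [max_eq_left (r_anti hnm)]
  apply le_antisymm
  · rcases le_or_gt (lab w s) n with hn | hn
    · rw [h.node_br hn, h.node_br (hn.trans hnm)]
      obtain ⟨j, rfl⟩ := Nat.exists_eq_add_of_le hnm
      have h1 := h.dl_br s (n - lab w s) j
      have e1 : n - lab w s + j = n + j - lab w s := by omega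
      have e2 : lab w s + (n - lab w s) = n := by omega
      rw [e1, e2] at h1
      exact h1.le
    · refine (h.ultra _ s _).trans (max_le ?_ ?_)
      · rw [h.symm, (h.node_anc hn).2]
      · rw [h.dl_node]
        exact max_le (r_anti hn.le) (r_anti hnm)
  · have := h.ge (node w s n) (node w s m)
    rwa [h.lab_node] at this

theorem Cls.node_dist (h : Cls w) (s t n m : ℕ) :
    dl w (node w s n) (node w t m) = max (max (r n) (r m)) (psi w s t) := by
  set M := lab w s + lab w t + (n + m) with hM
  have hA : node w s M = br w s (lab w t + (n + m)) := by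
    rw [h.node_br (by omega)]
    congr 1
    omega
  have hB : node w t M = br w t (lab w s + (n + m)) := by
    rw [h.node_br (by omega)]
    congr 1
    omega
  have hD : dl w (node w s M) (node w t M) = max (r M) (psi w s t) := by
    rw [hA, hB]
    exact h.Dk_eq s t (n + m)
  have rn : r M ≤ r n := r_anti (by omega)
  have rm : r M ≤ r m := r_anti (by omega)
  have h1 : dl w (node w s n) (node w s M) = r n := by rw [h.node_node, max_eq_left rn]
  have h2 : dl w (node w t M) (node w t m) = r m := by rw [h.node_node, max_eq_right rm]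
  apply le_antisymm
  · refine (h.ultra _ (node w s M) _).trans (max_le ?_ ?_)
    · rw [h1]
      exact le_max_of_le_left (le_max_left _ _)
    · refine (h.ultra _ (node w t M) _).trans (max_le ?_ ?_)
      · rw [hD]
        exact max_le (le_max_of_le_left (rn.trans (le_max_left _ _))) (le_max_right _ _)
      · rw [h2]
        exact le_max_of_le_left (le_max_right _ _)
  · have g1 := h.ge (node w s n) (node w t m)
    have g2 := h.ge' (node w s n) (node w t m)
    rw [h.lab_node] at g1 g2
    refine max_le (max_le g1 g2) ?_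
    have h3 : psi w s t ≤ dl w (node w s M) (node w t M) := by
      rw [hD]
      exact le_max_right _ _
    refine h3.trans ((h.ultra _ (node w s n) _).trans (max_le ?_ ?_))
    · rw [h.symm, h1]
      exact g1
    · refine (h.ultra _ (node w t m) _).trans (max_le le_rfl ?_)
      rw [h.symm, h2]
      exact g2

/-- `x` is an ultrametric (possibly with different points of distance `0`) -/
structure Ultra (x : ℕ → ℕ → ℝ) : Prop where
  self : ∀ m, x m m = 0
  symm : ∀ m n, x m n = x n m
  ultra : ∀ m n k, x m k ≤ max (x m n) (x n k)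

theorem Ultra.nonneg {x : ℕ → ℕ → ℝ} (h : Ultra x) (m n : ℕ) : 0 ≤ x m n := by
  have := h.ultra m n m
  rw [h.self, h.symm n m, max_self] at this
  exact this

theorem exists_r_lt {ε : ℝ} (hε : 0 < ε) : ∃ n, r n < ε :=
  exists_pow_lt_of_lt_one hε (by norm_num)

theorem Cls.ultra_psi (h : Cls w) : Ultra (psi w) := by
  refine ⟨fun s => ?_, fun s t => ?_, fun s t u => ?_⟩
  · apply le_antisymm _ (h.psi_nonneg s s)
    by_contra hlt
    push Not at hlt
    obtain ⟨n, hn⟩ := exists_r_lt hlt
    have h1 := h.node_dist s s n n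
    rw [dl_self, h.lab_node] at h1
    have h2 : psi w s s ≤ r n := by
      rw [h1]
      exact le_max_right _ _
    linarith
  · unfold psi
    congr 1
    funext k
    exact h.symm _ _
  · by_contra hlt
    push Not at hlt
    have h0 : 0 < psi w s u := (h.psi_nonneg s t).trans_lt ((le_max_left _ _).trans_lt hlt)
    obtain ⟨n, hn⟩ := exists_r_lt h0
    have h1 := h.ultra (node w s n) (node w t n) (node w u n)
    rw [h.node_dist, h.node_dist, h.node_dist] at h1
    have h2 : psi w s u ≤ max (max (max (r n) (r n)) (psi w s t)) (max (max (r n) (r n)) (psi w t u)) :=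
      (le_max_right _ _).trans h1
    rw [max_self] at h2
    have h3 : max (max (r n) (psi w s t)) (max (r n) (psi w t u)) < psi w s u :=
      max_lt (max_lt hn ((le_max_left _ _).trans_lt hlt)) (max_lt hn ((le_max_right _ _).trans_lt hlt))
    linarith

end Pool.Agent.H16VC.PU
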