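import Pool.Agent.H16VC.PU4

set_option autoImplicit false

/-! The ball structure of an ultrametric, and the isomorphism with the decoded structure. -/

namespace Pool.Agent.H16VC.PU

/-- nodes: a point, a level and a copy -/
noncomputable def nd : ℕ ≃ ℕ × ℕ × ℕ := (Classical.choice (nonempty_equiv_of_countable :
  Nonempty (ℕ ≃ ℕ × ℕ × ℕ)))

noncomputable def pt (s : ℕ) : ℕ := (nd s).1

noncomputable def lv (s : ℕ) : ℕ := (nd s).2.1

noncomputable def mk (i n k : ℕ) : ℕ := nd.symm (i, n, k)

@[simp] theorem pt_mk (i n k : ℕ) : pt (mk i n k) = i := by simp [pt, mk]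

@[simp] theorem lv_mk (i n k : ℕ) : lv (mk i n k) = n := by simp [lv, mk]

theorem mk_inj (i n : ℕ) : Function.Injective (mk i n) := by
  intro k l h
  have := nd.symm.injective h
  simpa using this

/-- the joint radius -/
noncomputable def jr (x : ℕ → ℕ → ℝ) (s t : ℕ) : ℝ :=
  max (max (r (lv s)) (r (lv t))) (x (pt s) (pt t))

noncomputable def phi (x : ℕ → ℕ → ℝ) : W :=
  (fun s t => if s = t then 0 else 2 + 2 * jr x s t - r (lv s) - r (lv t),
    fun n s => decide (n = lv s))

theorem lab_phi (x : ℕ → ℕ → ℝ) (s : ℕ) : lab (phi x) s = lv s := by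
  unfold lab phi
  simp

theorem jr_self {x : ℕ → ℕ → ℝ} (h : Ultra x) (s : ℕ) : jr x s s = r (lv s) := by
  unfold jr
  rw [h.self, max_self, max_eq_left (r_pos _).le]

theorem dl_phi {x : ℕ → ℕ → ℝ} (h : Ultra x) (s t : ℕ) : dl (phi x) s t = jr x s t := by
  unfold dl
  rw [lab_phi, lab_phi]
  by_cases hst : s = t
  · subst hst
    rw [if_pos rfl, jr_self h]
  · rw [if_neg hst]
    have : (phi x).1 s t = 2 + 2 * jr x s t - r (lv s) - r (lv t) := if_neg hst
    rw [this]
    ring

theorem jr_symm {x : ℕ → ℕ → ℝ} (h : Ultra x) (s t : ℕ) : jr x s t = jr x t s := by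
  unfold jr
  rw [h.symm, max_comm (r (lv s))]

theorem jr_ge (x : ℕ → ℕ → ℝ) (s t : ℕ) : r (lv s) ≤ jr x s t :=
  (le_max_left _ _).trans (le_max_left _ _)

theorem jr_ultra {x : ℕ → ℕ → ℝ} (h : Ultra x) (s t u : ℕ) :
    jr x s u ≤ max (jr x s t) (jr x t u) := by
  refine max_le (max_le ?_ ?_) ((h.ultra (pt s) (pt t) (pt u)).trans ?_)
  · exact le_max_of_le_left (jr_ge _ _ _)
  · rw [jr_symm h t u]
    exact le_max_of_le_right (jr_ge _ _ _)
  · exact max_le_max (le_max_right _ _) (le_max_right _ _)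

/-- four point condition for hairs attached to an ultrametric-like function -/
theorem four_aux (ρ : ℕ → ℝ) (D : ℕ → ℕ → ℝ) (hs : ∀ s t, D s t = D t s)
    (hge : ∀ s t, ρ s ≤ D s t) (hu : ∀ s t u, D s u ≤ max (D s t) (D t u)) (hρ : ∀ s, 0 ≤ ρ s)
    (d : ℕ → ℕ → ℝ) (hd : ∀ s t, d s t = if s = t then 0 else 2 + 2 * D s t - ρ s - ρ t)
    (a b c e : ℕ) : d a b + d c e ≤ max (d a c + d b e) (d a e + d b c) := by
  have ds : ∀ s t, d s t = d t s := by
    intro s t
    rw [hd, hd, hs s t]
    by_cases h : s = t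
    · simp [h]
    · rw [if_neg h, if_neg (Ne.symm h)]
      ring
  have hge' : ∀ s t, ρ t ≤ D s t := fun s t => by rw [hs]; exact hge t s
  have d0 : ∀ s, d s s = 0 := fun s => by rw [hd, if_pos rfl]
  have dne : ∀ {s t}, s ≠ t → d s t = 2 + 2 * D s t - ρ s - ρ t := fun h => by rw [hd, if_neg h]
  have nn : ∀ s t, 0 ≤ d s t := by
    intro s t
    by_cases h : s = t
    · rw [h, d0]
    · rw [dne h]
      have := hge s t
      have := hge' s t
      linarith
  -- the triangle inequality
  have tri : ∀ s t u, d s u ≤ d s t + d t u := by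
    intro s t u
    by_cases h1 : s = t
    · subst h1
      rw [d0]
      linarith
    by_cases h2 : t = u
    · subst h2
      rw [d0]
      linarith
    by_cases h3 : s = u
    · subst h3
      rw [d0]
      have := nn s t
      have := nn t s
      linarith
    rw [dne h1, dne h2, dne h3]
    have g1 := hge' s t
    have g2 := hge t u
    rcases le_max_iff.1 (hu s t u) with h | h <;> linarith
  by_cases hab : a = b
  · subst hab
    rw [d0]
    have := tri c a e
    rw [ds c a] at this
    exact le_max_of_le_left (by linarith)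
  by_cases hce : c = e
  · subst hce
    rw [d0]
    have := tri a c b
    rw [ds c b] at this
    exact le_max_of_le_left (by linarith)
  by_cases hac : a = c
  · subst hac
    exact le_max_of_le_right (by rw [ds b a]; linarith)
  by_cases hbe : b = e
  · subst hbe
    exact le_max_of_le_right (by rw [ds c b])
  by_cases hae : a = e
  · subst hae
    exact le_max_of_le_left (by rw [ds c a, ds b a]; linarith)
  by_cases hbc : b = c
  · subst hbc
    exact le_max_of_le_left le_rfl
  rw [dne hab, dne hce, dne hac, dne hbe, dne hae, dne hbc]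
  have h1 := hu a c b
  have h2 := hu a e b
  have h3 := hu c a e
  have h4 := hu c b e
  rw [hs c b] at h1
  rw [hs e b] at h2
  rw [hs c a] at h3
  rw [hs c b] at h4
  have goal : D a b + D c e ≤ max (D a c + D b e) (D a e + D b c) := by
    rcases le_max_iff.1 h1 with h1 | h1 <;> rcases le_max_iff.1 h2 with h2 | h2 <;>
      rcases le_max_iff.1 h3 with h3 | h3 <;> rcases le_max_iff.1 h4 with h4 | h4 <;>
      first
      | exact le_max_of_le_left (by linarith)
      | exact le_max_of_le_right (by linarith)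
      | (rcases le_total (D a b) (D c e) with h5 | h5 <;>
          first
          | exact le_max_of_le_left (by linarith)
          | exact le_max_of_le_right (by linarith))
  rcases le_max_iff.1 goal with h | h
  · exact le_max_of_le_left (by linarith)
  · exact le_max_of_le_right (by linarith)

theorem cls_phi {x : ℕ → ℕ → ℝ} (h : Ultra x) : Cls (phi x) := by
  refine ⟨⟨fun a b => ?_, fun a b => ?_, ?_⟩, fun s n => ?_, fun s t => ?_, fun s t => ?_,
    fun s t u => ?_, fun s N => ?_, fun s => ?_, fun s n hn => ?_⟩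
  · constructor
    · intro hab
      by_contra hne
      have e : (phi x).1 a b = 2 + 2 * jr x a b - r (lv a) - r (lv b) := if_neg hne
      have g1 := jr_ge x a b
      have g2 := jr_ge x b a
      rw [jr_symm h b a] at g2
      rw [e] at hab
      linarith
    · rintro rfl
      exact if_pos rfl
  · show (if a = b then (0 : ℝ) else _) = if b = a then (0 : ℝ) else _
    rw [jr_symm h a b]
    by_cases hab : a = b
    · simp [hab]
    · rw [if_neg hab, if_neg (Ne.symm hab)]
      ring
  · exact four_aux (fun s => r (lv s)) (jr x) (jr_symm h) (jr_ge x) (jr_ultra h)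
      (fun s => (r_pos _).le) _ fun s t => rfl
  · rw [lab_phi]
    show decide (n = lv s) = true ↔ n = lv s
    exact decide_eq_true_iff
  · rw [dl_phi h, dl_phi h, jr_symm h]
  · rw [dl_phi h, lab_phi]
    exact jr_ge x s t
  · rw [dl_phi h, dl_phi h, dl_phi h]
    exact jr_ultra h s t u
  · obtain ⟨t, ⟨k, rfl⟩, ht⟩ := (Set.infinite_range_of_injective (mk_inj (pt s) (lv s))).exists_gt N
    refine ⟨mk (pt s) (lv s) k, ht, ?_, ?_⟩
    · rw [lab_phi, lab_phi, lv_mk]
    · rw [dl_phi h, lab_phi]
      unfold jr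
      rw [lv_mk, pt_mk, h.self, max_self, max_eq_left (r_pos _).le]
  · refine ⟨mk (pt s) (lv s + 1) 0, ?_, ?_⟩
    · rw [lab_phi, lab_phi, lv_mk]
    · rw [dl_phi h, lab_phi]
      unfold jr
      rw [lv_mk, pt_mk, h.self, max_eq_left (r_anti (Nat.le_succ _)), max_eq_left (r_pos _).le]
  · rw [lab_phi] at hn
    refine ⟨mk (pt s) n 0, ?_, ?_⟩
    · rw [lab_phi, lv_mk]
    · rw [dl_phi h]
      unfold jr
      rw [lv_mk, pt_mk, h.self, max_eq_right (r_anti hn.le), max_eq_left (r_pos _).le]

/-- the ball of a node -/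
noncomputable def cl (w : W) (a : ℕ) : ℕ × Set ℕ := (lab w a, {b | dl w a b ≤ r (lab w a)})

theorem Cls.cl_eq {w : W} (h : Cls w) (a a' : ℕ) :
    cl w a = cl w a' ↔ lab w a = lab w a' ∧ dl w a a' ≤ r (lab w a) := by
  unfold cl
  rw [Prod.mk.injEq]
  constructor
  · rintro ⟨h1, h2⟩
    refine ⟨h1, ?_⟩
    have : a' ∈ {b | dl w a b ≤ r (lab w a)} := by
      rw [h2]
      show dl w a' a' ≤ r (lab w a')
      rw [dl_self]
    exact this
  · rintro ⟨h1, h2⟩
    refine ⟨h1, ?_⟩
    ext b
    show dl w a b ≤ r (lab w a) ↔ dl w a' b ≤ r (lab w a')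
    rw [← h1]
    constructor
    · intro h3
      refine (h.ultra a' a b).trans (max_le ?_ h3)
      rw [h.symm]
      exact h2
    · intro h3
      exact (h.ultra a a' b).trans (max_le h2 h3)

theorem Cls.dl_congr {w : W} (h : Cls w) {a a' b b' : ℕ} (ha : cl w a = cl w a')
    (hb : cl w b = cl w b') : dl w a b = dl w a' b' := by
  have key : ∀ a a' b b', cl w a = cl w a' → cl w b = cl w b' → dl w a b ≤ dl w a' b' := by
    intro a a' b b' ha hb
    obtain ⟨h1, h2⟩ := (h.cl_eq a a').1 ha
    obtain ⟨h3, h4⟩ := (h.cl_eq b b').1 hb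
    have g1 := h.ge a' b'
    have g2 := h.ge' a' b'
    refine (h.ultra a a' b).trans (max_le ?_ ((h.ultra a' b' b).trans (max_le le_rfl ?_)))
    · rw [h1] at h2
      exact h2.trans g1
    · rw [h.symm]
      rw [h3] at h4
      exact h4.trans g2
  exact le_antisymm (key a a' b b' ha hb) (key a' a b' b ha.symm hb.symm)

theorem iso_phi_psi {w : W} (h : Cls w) : WIso (phi (psi w)) w := by
  obtain ⟨σ, hσ⟩ := match_perm (fun u => cl w (node w (pt u) (lv u))) (fun v => cl w v)
    (fun u => ⟨_, rfl⟩) (fun v => ⟨mk v (lab w v) 0, by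
      show cl w (node w (pt (mk v (lab w v) 0)) (lv (mk v (lab w v) 0))) = cl w v
      rw [pt_mk, lv_mk, h.node_self]⟩)
    (fun u => by
      refine (Set.infinite_range_of_injective (mk_inj (pt u) (lv u))).mono ?_
      rintro _ ⟨k, rfl⟩
      show cl w (node w (pt (mk (pt u) (lv u) k)) (lv (mk (pt u) (lv u) k))) =
        cl w (node w (pt u) (lv u))
      rw [pt_mk, lv_mk])
    (fun v => by
      refine Set.infinite_of_not_bddAbove ?_
      rintro ⟨M, hM⟩
      obtain ⟨t, ht, ht1, ht2⟩ := h.inf v M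
      have h3 : t ∈ {t | cl w t = cl w v} := by
        show cl w t = cl w v
        rw [eq_comm, h.cl_eq]
        exact ⟨ht1.symm, ht2.le⟩
      exact absurd (hM h3) (not_le.2 ht))
  have hlab : ∀ u, lab w (σ u) = lv u := by
    intro u
    have h1 : (cl w (σ u)).1 = (cl w (node w (pt u) (lv u))).1 := congrArg Prod.fst (hσ u)
    have h2 : lab w (σ u) = lab w (node w (pt u) (lv u)) := h1
    rw [h2, h.lab_node]
  refine ⟨σ, fun a b => ?_, fun i m => ?_⟩
  · by_cases hab : a = b
    · subst hab
      rw [(h.hyp.zero _ _).2 rfl]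
      exact (if_pos rfl).symm
    · have e1 : (phi (psi w)).1 a b = 2 + 2 * jr (psi w) a b - r (lv a) - r (lv b) := if_neg hab
      have e2 : dl w (σ a) (σ b) = (w.1 (σ a) (σ b) - 2 + r (lab w (σ a)) + r (lab w (σ b))) / 2 :=
        if_neg (σ.injective.ne hab)
      have e3 : dl w (σ a) (σ b) = jr (psi w) a b := by
        rw [h.dl_congr (hσ a) (hσ b), h.node_dist]
        rfl
      rw [e1, ← e3, e2, hlab, hlab]
      ring
  · show w.2 i (σ m) = decide (i = lv m)
    rw [Bool.eq_iff_iff, h.lab_iff, hlab, decide_eq_true_iff]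

end Pool.Agent.H16VC.PU
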