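import Pool.Agent.H16VC.PU5

set_option autoImplicit false

/-! Isometry of the completions is isomorphism of the ball structures. -/

namespace Pool.Agent.H16VC.PU

open Metric Filter Topology

/-- the two matrices are the distance matrices of dense sequences of one complete metric space -/
def SS (x y : ℕ → ℕ → ℝ) : Prop :=
  ∃ (X : Type) (_ : MetricSpace X) (_ : CompleteSpace X) (a b : ℕ → X),
    DenseRange a ∧ DenseRange b ∧ (∀ m n, dist (a m) (a n) = x m n) ∧
    ∀ m n, dist (b m) (b n) = y m n

theorem iso_of_ss {x y : ℕ → ℕ → ℝ} (hx : Ultra x) (h : SS x y) : WIso (phi x) (phi y) := by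
  obtain ⟨X, mX, cX, a, b, ha, hb, hax, hby⟩ := h
  have hu : ∀ p q s : X, dist p s ≤ max (dist p q) (dist q s) := by
    intro p q s
    refine DenseRange.induction_on₃ (p := fun p q s => dist p s ≤ max (dist p q) (dist q s)) ha ?_ ?_
      p q s
    · refine isClosed_le ?_ ?_ <;> fun_prop
    · intro i j k
      rw [hax, hax, hax]
      exact hx.ultra i j k
  have hball : ∀ (p q : X) (n : ℕ), dist p q ≤ r n → closedBall p (r n) = closedBall q (r n) := by
    intro p q n hpq
    ext s
    rw [mem_closedBall, mem_closedBall]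
    constructor
    · intro hs
      exact (hu s p q).trans (max_le hs hpq)
    · intro hs
      exact (hu s q p).trans (max_le hs (by rw [dist_comm]; exact hpq))
  have hcl : ∀ (p p' q q' : X) (R R' : ℝ), dist p p' ≤ R → dist q q' ≤ R' →
      max (max R R') (dist p q) = max (max R R') (dist p' q') := by
    have key : ∀ (p p' q q' : X) (R R' : ℝ), dist p p' ≤ R → dist q q' ≤ R' →
        max (max R R') (dist p q) ≤ max (max R R') (dist p' q') := by
      intro p p' q q' R R' h1 h2
      refine max_le (le_max_left _ _) ((hu p p' q).trans (max_le ?_ ((hu p' q' q).trans (max_le ?_ ?_))))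
      · exact h1.trans ((le_max_left _ _).trans (le_max_left _ _))
      · exact le_max_right _ _
      · rw [dist_comm]
        exact h2.trans ((le_max_right _ _).trans (le_max_left _ _))
    intro p p' q q' R R' h1 h2
    exact le_antisymm (key p p' q q' R R' h1 h2)
      (key p' p q' q R R' (by rw [dist_comm]; exact h1) (by rw [dist_comm]; exact h2))
  have near : ∀ (c : ℕ → X), DenseRange c → ∀ (p : X) (n : ℕ), ∃ j, dist p (c j) ≤ r n := by
    intro c hc p n
    obtain ⟨j, hj⟩ := hc.exists_dist_lt p (r_pos n)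
    exact ⟨j, hj.le⟩
  have hinf : ∀ (c : ℕ → X) (u : ℕ), {v | (lv v, closedBall (c (pt v)) (r (lv v))) =
      (lv u, closedBall (c (pt u)) (r (lv u)))}.Infinite := by
    intro c u
    refine (Set.infinite_range_of_injective (mk_inj (pt u) (lv u))).mono ?_
    rintro _ ⟨k, rfl⟩
    show (lv (mk (pt u) (lv u) k), closedBall (c (pt (mk (pt u) (lv u) k)))
      (r (lv (mk (pt u) (lv u) k)))) = _
    rw [pt_mk, lv_mk]
  have hrange : ∀ (c c' : ℕ → X), DenseRange c' → ∀ u, ∃ v,
      ((lv v, closedBall (c' (pt v)) (r (lv v))) : ℕ × Set X) =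
      (lv u, closedBall (c (pt u)) (r (lv u))) := by
    intro c c' hc' u
    obtain ⟨j, hj⟩ := near c' hc' (c (pt u)) (lv u)
    refine ⟨mk j (lv u) 0, ?_⟩
    rw [pt_mk, lv_mk, hball _ _ _ hj]
  obtain ⟨σ, hσ⟩ := match_perm
    (fun u => ((lv u, closedBall (a (pt u)) (r (lv u))) : ℕ × Set X))
    (fun v => ((lv v, closedBall (b (pt v)) (r (lv v))) : ℕ × Set X))
    (hrange a b hb) (hrange b a ha) (hinf a) (hinf b)
  have h1 : ∀ u, lv (σ u) = lv u := fun u => (Prod.mk.inj (hσ u)).1
  have h2 : ∀ u, dist (b (pt (σ u))) (a (pt u)) ≤ r (lv u) := by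
    intro u
    have e : closedBall (b (pt (σ u))) (r (lv (σ u))) = closedBall (a (pt u)) (r (lv u)) :=
      (Prod.mk.inj (hσ u)).2
    have : b (pt (σ u)) ∈ closedBall (a (pt u)) (r (lv u)) := by
      rw [← e]
      exact mem_closedBall_self (r_pos _).le
    exact mem_closedBall.1 this
  refine ⟨σ, fun u v => ?_, fun i m => ?_⟩
  · show (if σ u = σ v then (0 : ℝ) else 2 + 2 * jr y (σ u) (σ v) - r (lv (σ u)) - r (lv (σ v))) =
      if u = v then (0 : ℝ) else 2 + 2 * jr x u v - r (lv u) - r (lv v)
    have e : jr y (σ u) (σ v) = jr x u v := by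
      unfold jr
      rw [← hby, ← hax, h1, h1]
      exact hcl _ _ _ _ _ _ (h2 u) (h2 v)
    simp only [σ.injective.eq_iff, h1, e]
  · show decide (i = lv (σ m)) = decide (i = lv m)
    rw [h1]

/-- the points of a code -/
def Pt (_ : ℕ → ℕ → ℝ) : Type := ℕ

/-- the pseudometric of a code -/
noncomputable def pms {y : ℕ → ℕ → ℝ} (hy : Ultra y) : PseudoMetricSpace (Pt y) where
  dist := y
  dist_self := hy.self
  dist_comm := hy.symm
  dist_triangle a b c := (hy.ultra a b c).trans
    (max_le_add_of_nonneg (hy.nonneg _ _) (hy.nonneg _ _))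

theorem tendsto_r : Tendsto r atTop (𝓝 0) :=
  tendsto_pow_atTop_nhds_zero_of_lt_one (by norm_num) (by norm_num)

theorem ss_of_iso {x y : ℕ → ℕ → ℝ} (hx : Ultra x) (hy : Ultra y) (h : WIso (phi x) (phi y)) :
    SS x y := by
  obtain ⟨σ, hσ1, hσ2⟩ := h
  have hlv : ∀ u, lv (σ u) = lv u := by
    intro u
    have := lab_iso hσ2 u
    rwa [lab_phi, lab_phi] at this
  have hjr : ∀ u v, jr y (σ u) (σ v) = jr x u v := by
    intro u v
    have := dl_iso hσ1 hσ2 u v
    rwa [dl_phi hy, dl_phi hx] at this
  let _ := pms hy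
  let X := UniformSpace.Completion (Pt y)
  let b : ℕ → X := fun j => UniformSpace.Completion.coe' (α := Pt y) j
  have hb : DenseRange b := UniformSpace.Completion.denseRange_coe (α := Pt y)
  have hby : ∀ m n, dist (b m) (b n) = y m n := fun m n => UniformSpace.Completion.dist_eq _ _
  let s : ℕ → ℕ → X := fun i n => b (pt (σ (mk i n 0)))
  have hyle : ∀ u v, y (pt u) (pt v) ≤ jr y u v := fun u v => le_max_right _ _
  have hs : ∀ i N n m, N ≤ n → N ≤ m → dist (s i n) (s i m) ≤ r N := by
    intro i N n m hn hm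
    show dist (b _) (b _) ≤ _
    rw [hby]
    refine (hyle _ _).trans ?_
    rw [hjr]
    unfold jr
    rw [lv_mk, lv_mk, pt_mk, pt_mk, hx.self]
    exact max_le (max_le (r_anti hn) (r_anti hm)) (r_pos _).le
  have hc : ∀ i, CauchySeq (s i) := fun i =>
    cauchySeq_of_le_tendsto_0 r (fun n m N hn hm => hs i N n m hn hm) tendsto_r
  choose a ha using fun i => cauchySeq_tendsto_of_complete (hc i)
  have hsa : ∀ i n, dist (s i n) (a i) ≤ r n := by
    intro i n
    have h1 : Tendsto (fun m => dist (s i n) (s i m)) atTop (𝓝 (dist (s i n) (a i))) :=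
      tendsto_const_nhds.dist (ha i)
    refine le_of_tendsto h1 ?_
    filter_upwards [eventually_ge_atTop n] with m hm
    exact hs i n n m le_rfl hm
  have hax : ∀ i i', dist (a i) (a i') = x i i' := by
    intro i i'
    have key : ∀ n, |dist (a i) (a i') - x i i'| ≤ 3 * r n := by
      intro n
      have h1 := hsa i n
      have h2 := hsa i' n
      have h3 : max (max (r n) (r n)) (dist (s i n) (s i' n)) = max (max (r n) (r n)) (x i i') := by
        have := hjr (mk i n 0) (mk i' n 0)
        unfold jr at this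
        rw [hlv, hlv, lv_mk, lv_mk, pt_mk, pt_mk, ← hby] at this
        exact this
      rw [max_self] at h3
      have h4 : dist (s i n) (s i' n) ≤ x i i' + r n := by
        have : dist (s i n) (s i' n) ≤ max (r n) (x i i') := by
          rw [← h3]
          exact le_max_right _ _
        refine this.trans (max_le ?_ ?_)
        · have := hx.nonneg i i'
          linarith
        · have := r_pos n
          linarith
      have h5 : x i i' ≤ dist (s i n) (s i' n) + r n := by
        have : x i i' ≤ max (r n) (dist (s i n) (s i' n)) := by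
          rw [h3]
          exact le_max_right _ _
        refine this.trans (max_le ?_ ?_)
        · have : 0 ≤ dist (s i n) (s i' n) := dist_nonneg
          linarith
        · have := r_pos n
          linarith
      have h6 : dist (a i) (a i') ≤ dist (a i) (s i n) + dist (s i n) (s i' n) + dist (s i' n) (a i') :=
        dist_triangle4 _ _ _ _
      have h7 : dist (s i n) (s i' n) ≤ dist (s i n) (a i) + dist (a i) (a i') + dist (a i') (s i' n) :=
        dist_triangle4 _ _ _ _
      rw [dist_comm (a i) (s i n)] at h6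
      rw [dist_comm (a i') (s i' n)] at h7
      rw [abs_le]
      constructor <;> linarith
    have h0 : |dist (a i) (a i') - x i i'| ≤ 0 := by
      refine ge_of_tendsto' (x := atTop) (f := fun n => 3 * r n) ?_ key
      have := tendsto_r.const_mul 3
      rwa [mul_zero] at this
    have h1 := abs_nonpos_iff.1 h0
    linarith
  refine ⟨X, inferInstance, inferInstance, a, b, ?_, hb, hax, hby⟩
  rw [Metric.denseRange_iff]
  intro p ε hε
  obtain ⟨j, hj⟩ := hb.exists_dist_lt p (half_pos hε)
  obtain ⟨n, hn⟩ := exists_r_lt (show 0 < ε / 4 by linarith)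
  have hlu : lv (σ.symm (mk j n 0)) = n := by
    have := hlv (σ.symm (mk j n 0))
    rw [σ.apply_symm_apply, lv_mk] at this
    exact this.symm
  refine ⟨pt (σ.symm (mk j n 0)), ?_⟩
  have h1 := hsa (pt (σ.symm (mk j n 0))) n
  have h2 : dist (b j) (s (pt (σ.symm (mk j n 0))) n) ≤ r n := by
    show dist (b j) (b _) ≤ _
    rw [hby]
    have h3 := hyle (σ (σ.symm (mk j n 0))) (σ (mk (pt (σ.symm (mk j n 0))) n 0))
    rw [hjr, σ.apply_symm_apply, pt_mk] at h3
    refine h3.trans ?_
    unfold jr
    rw [hlu, lv_mk, pt_mk, hx.self, max_self]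
    exact max_le le_rfl (r_pos _).le
  have h4 : dist p (a (pt (σ.symm (mk j n 0)))) ≤ dist p (b j) +
      dist (b j) (s (pt (σ.symm (mk j n 0))) n) +
      dist (s (pt (σ.symm (mk j n 0))) n) (a (pt (σ.symm (mk j n 0)))) := dist_triangle4 _ _ _ _
  linarith

end Pool.Agent.H16VC.PU
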