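import Pool.Agent.H16VC.Rich
import Pool.Agent.H16VC.Transfer
import Pool.Agent.Results.MP_5df2c5_lc.ModularDecomposition

set_option autoImplicit false

/-! The dichotomy for colourings without rainbow triangles and without rich pairs. -/

namespace Pool.Agent.H16VC

open Pool.Agent.Results.MP_5df2c5_lc.ModularDecomposition (Str UStr Iso UIso IsModule IsPrime
  quotient PrimeQuotientsIn)
open Pool.Agent.W889.VC (VCof)

abbrev Col : Type := ℕ → ℕ → ℕ

abbrev UCol : Type := Col × (ℕ → ℕ → Bool)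

def CIso (x y : Col) : Prop := ∃ σ : Equiv.Perm ℕ, ∀ m n, y (σ m) (σ n) = x m n

def UCIso (x y : UCol) : Prop :=
  ∃ σ : Equiv.Perm ℕ, (∀ m n, y.1 (σ m) (σ n) = x.1 m n) ∧ ∀ i m, y.2 i (σ m) = x.2 i m

abbrev A2 : ℕ → ℕ := fun _ => 2

def enc (c : Col) : Str A2 := fun i t => decide (c (t 0) (t 1) = i)

theorem enc_inj : Function.Injective enc := by
  intro c d h
  funext u v
  have := congrFun (congrFun h (d u v)) ![u, v]
  have h2 : decide (c u v = d u v) = decide (d u v = d u v) := this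
  rw [decide_eq_decide] at h2
  exact h2.2 rfl

theorem enc_meas : Measurable enc := by
  refine measurable_pi_iff.2 fun i => measurable_pi_iff.2 fun t => ?_
  have h1 : Measurable fun c : Col => c (t 0) (t 1) :=
    (measurable_pi_apply (t 1)).comp (measurable_pi_apply (t 0))
  exact (measurable_of_countable (fun n : ℕ => decide (n = i))).comp h1

theorem p2_eta (v : Fin 2 → ℕ) : ![v 0, v 1] = v := by
  funext i
  fin_cases i <;> rfl

/-- no rich pair of colours -/
def Poor (c : Col) : Prop :=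
  (∀ u v, c u v = c v u) ∧ NR c ∧ ¬ ∃ i j, i ≠ j ∧ Tri c i i i ∧ Tri c i i j ∧ Tri c j j i

theorem q_eq (c : Col) (e : ℕ → ℕ) (i : ℕ) (v : Fin 2 → ℕ) (h : v 0 ≠ v 1) :
    quotient (enc c) e i v = decide (c (e (v 0)) (e (v 1)) = i) := by
  unfold quotient
  rw [if_pos ⟨0, 1, h⟩]
  rfl

theorem no_prime {c : Col} (hc : Poor c) : PrimeQuotientsIn (fun _ => False) (enc c) := by
  obtain ⟨hs, hr, hn⟩ := hc
  intro X e he _ hd _ hp
  have einj : ∀ m n, m ≠ n → e m ≠ e n := fun m n hmn h =>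
    Set.disjoint_left.1 (hd m n hmn) (he m) (by rw [h]; exact he n)
  set c' : Col := fun m n => c (e m) (e n) with hc'
  have hs' : ∀ a b, c' a b = c' b a := fun a b => hs _ _
  have hr' : NR c' := fun a b d h1 h2 h3 => hr _ _ _ (einj _ _ h1) (einj _ _ h2) (einj _ _ h3)
  have hp' : Prm c' := by
    intro Y hY
    refine hp Y ?_
    have hY' : ∀ u ∈ Y, ∀ v ∈ Y, ∀ w ∉ Y, c' w u = c' w v := by
      intro u hu v hv w hw
      rw [hs' w u, hs' w v]
      exact hY u hu v hv w hw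
    intro i t k l b htk hb htl
    have hkl : k ≠ l := by rintro rfl; exact htl htk
    have hbl : b ≠ t l := by rintro rfl; exact htl hb
    have htkl : t k ≠ t l := by intro h; rw [h] at htk; exact htl htk
    obtain ⟨hk, hl⟩ | ⟨hk, hl⟩ : (k = 0 ∧ l = 1) ∨ (k = 1 ∧ l = 0) := by
      have : ∀ k l : Fin 2, k ≠ l → (k = 0 ∧ l = 1) ∨ (k = 1 ∧ l = 0) := by decide
      exact this k l hkl
    · subst hk hl
      have e0 : Function.update t 0 b 0 = b := Function.update_self _ _ _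
      have e1 : Function.update t 0 b 1 = t 1 := Function.update_of_ne one_ne_zero _ _
      rw [q_eq _ _ _ _ (by rw [e0, e1]; exact hbl), q_eq _ _ _ _ htkl, e0, e1]
      have : c' b (t 1) = c' (t 0) (t 1) := hY b hb _ htk _ htl
      show decide (c' b (t 1) = i) = decide (c' (t 0) (t 1) = i)
      rw [this]
    · subst hk hl
      have e0 : Function.update t 1 b 1 = b := Function.update_self _ _ _
      have e1 : Function.update t 1 b 0 = t 0 := Function.update_of_ne zero_ne_one _ _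
      rw [q_eq _ _ _ _ (by rw [e0, e1]; exact hbl.symm), q_eq _ _ _ _ htkl.symm, e0, e1]
      have : c' (t 0) b = c' (t 0) (t 1) := hY' b hb _ htk _ htl
      show decide (c' (t 0) b = i) = decide (c' (t 0) (t 1) = i)
      rw [this]
  obtain ⟨i, j, hij, _, h1, h2, h3⟩ := rich_of_prime hs' hr' hp'
  have hT : ∀ {i j k}, Tri c' i j k → Tri c i j k := by
    rintro i j k ⟨a, b, d, hab, hbd, had, h⟩
    exact ⟨e a, e b, e d, einj _ _ hab, einj _ _ hbd, einj _ _ had, h⟩
  exact hn ⟨i, j, hij, hT h1, hT h2, hT h3⟩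

theorem relabel (σ : Equiv.Perm ℕ) (y : Col) (x' : Str A2)
    (hx : ∀ i (v : Fin 2 → ℕ), x' i (⇑σ ∘ v) = enc y i v) :
    enc (fun u v => y (σ.symm u) (σ.symm v)) = x' := by
  funext i v
  have h1 := hx i (⇑σ.symm ∘ v)
  have h2 : ⇑σ ∘ (⇑σ.symm ∘ v) = v := by
    funext j
    simp
  rw [h2] at h1
  rw [h1]
  rfl

theorem encE (σ : Equiv.Perm ℕ) (y z : Col) (hyz : ∀ m n, z (σ m) (σ n) = y m n)
    (i : ℕ) (v : Fin 2 → ℕ) : enc z i (⇑σ ∘ v) = enc y i v := by
  show decide (z (σ (v 0)) (σ (v 1)) = i) = decide (y (v 0) (v 1) = i)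
  rw [hyz]

theorem down (K' : Str A2 → Prop) (K : Col → Prop) (hK : ∀ y, K y → K' (enc y))
    (h : VCof True (Iso (a := A2)) K') : VCof True CIso K := by
  refine transfer (E' := Iso (a := A2)) enc enc_meas enc_inj ?_ ?_ ?_ ?_ hK h
  · rintro x y ⟨σ, hσ⟩
    refine ⟨σ.symm, fun i v => ?_⟩
    rw [← hσ i]
    congr 1
    funext j
    simp
  · rintro x y ⟨σ, hσ⟩
    exact ⟨σ.symm, fun m n => by rw [← hσ, σ.apply_symm_apply, σ.apply_symm_apply]⟩
  · rintro y z ⟨σ, hσ⟩
    exact ⟨σ, encE σ y z hσ⟩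
  · rintro y x' ⟨σ, hσ⟩
    exact ⟨_, relabel σ y x' hσ, σ, fun m n => by simp⟩

theorem down_u (K' : Str A2 → Prop) (K : Col → Prop) (hK : ∀ y, K y → K' (enc y))
    (h : VCof True (UIso (a := A2)) (fun z => K' z.1)) : VCof True UCIso (fun z => K z.1) := by
  haveI := polish_bool
  haveI : PolishSpace UCol := polish_prod
  have b0 : BorelSpace (ℕ → Bool) := Pi.borelSpace
  have b1 : BorelSpace (ℕ → ℕ → Bool) := Pi.borelSpace
  have b2 : BorelSpace (ℕ → ℕ) := Pi.borelSpace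
  have b3 : BorelSpace Col := Pi.borelSpace
  have b4 : BorelSpace UCol := Prod.borelSpace
  have b5 : BorelSpace ((i : ℕ) → (Fin (A2 i) → ℕ) → Bool) := inferInstance
  have s1 : SecondCountableTopology (UStr A2) := inferInstance
  have b6 : BorelSpace (UStr A2) := inferInstance
  refine transfer (E' := UIso (a := A2)) (fun z : UCol => (enc z.1, z.2))
    ((enc_meas.comp measurable_fst).prodMk measurable_snd) ?_ ?_ ?_ ?_ ?_
    (fun y hy => hK _ hy) h
  · rintro ⟨x1, x2⟩ ⟨y1, y2⟩ h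
    rw [Prod.mk.injEq] at h
    rw [Prod.mk.injEq]
    exact ⟨enc_inj h.1, h.2⟩
  · rintro x y ⟨σ, hσ, hσ'⟩
    refine ⟨σ.symm, fun i v => ?_, fun i u => ?_⟩
    · rw [← hσ i]
      have h2 : ⇑σ ∘ (⇑σ.symm ∘ v) = v := by
        funext j
        simp
      rw [h2]
    · rw [← hσ', σ.apply_symm_apply]
  · rintro x y ⟨σ, hσ, hσ'⟩
    exact ⟨σ.symm, fun m n => by rw [← hσ, σ.apply_symm_apply, σ.apply_symm_apply],
      fun i m => by rw [← hσ', σ.apply_symm_apply]⟩
  · rintro y z ⟨σ, hσ, hσ'⟩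
    exact ⟨σ, encE σ y.1 z.1 hσ, hσ'⟩
  · rintro ⟨y, p⟩ ⟨x', p'⟩ ⟨σ, hσ, hσ'⟩
    refine ⟨(fun u v => y (σ.symm u) (σ.symm v), p'), ?_, σ, fun m n => by simp, hσ'⟩
    show (enc _, p') = (x', p')
    rw [relabel σ y x' hσ]

theorem down_col {K : Col → Prop} (h : VCof True (W889.VC.Iso (a := fun _ => 2)) (fun _ => True)) :
    VCof True CIso K :=
  down (fun _ => True) K (fun _ _ => trivial) h

theorem vc_poor_both : VCof True CIso Poor ∧ VCof True UCIso (fun z => Poor z.1) := by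
  have h := Results.MP_5df2c5_lc.ModularDecomposition.result A2 (fun _ => Nat.two_pos)
    (fun _ => False) (by
      intro B _ _ hB
      left
      exact ⟨fun _ => (fun _ _ => false, fun _ _ => false), fun x hx => (hB x hx).elim⟩)
  exact ⟨down _ _ (fun y hy => no_prime hy) ((pv_iff _ _).1 h.2),
    down_u _ _ (fun y hy => no_prime hy) ((pv_iff _ _).1 h.1)⟩

end Pool.Agent.H16VC
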