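import Pool.Agent.H16VC.Gallai

set_option autoImplicit false

/-! Infinite prime colourings without rainbow triangles. -/

namespace Pool.Agent.H16VC

/-- a triangle of colours `i`, `j`, `k` -/
def Tri {C : Type} (c : ℕ → ℕ → C) (i j k : C) : Prop :=
  ∃ a b d, a ≠ b ∧ b ≠ d ∧ a ≠ d ∧ c a b = i ∧ c b d = j ∧ c a d = k

theorem mono_aux {C : Type} {c : ℕ → ℕ → C} (i j : C)
    (hc : ∀ a b, a ≠ b → c a b = i ∨ c a b = j) (hi : {w | w ≠ 0 ∧ c 0 w = i}.Infinite) :
    Tri c i i i ∨ Tri c j j j := by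
  obtain ⟨t, ht, hcard⟩ := hi.exists_subset_card_eq 3
  obtain ⟨a, b, d, hab, had, hbd, rfl⟩ := Finset.card_eq_three.1 hcard
  have ha : a ≠ 0 ∧ c 0 a = i := ht (by simp)
  have hb : b ≠ 0 ∧ c 0 b = i := ht (by simp)
  have hd : d ≠ 0 ∧ c 0 d = i := ht (by simp)
  by_cases h1 : c a b = i
  · exact Or.inl ⟨0, a, b, ha.1.symm, hab, hb.1.symm, ha.2, h1, hb.2⟩
  by_cases h2 : c b d = i
  · exact Or.inl ⟨0, b, d, hb.1.symm, hbd, hd.1.symm, hb.2, h2, hd.2⟩
  by_cases h3 : c a d = i
  · exact Or.inl ⟨0, a, d, ha.1.symm, had, hd.1.symm, ha.2, h3, hd.2⟩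
  exact Or.inr ⟨a, b, d, hab, hbd, had, (hc a b hab).resolve_left h1,
    (hc b d hbd).resolve_left h2, (hc a d had).resolve_left h3⟩

theorem mono {C : Type} {c : ℕ → ℕ → C} (i j : C)
    (hc : ∀ a b, a ≠ b → c a b = i ∨ c a b = j) : Tri c i i i ∨ Tri c j j j := by
  have h : ({w | w ≠ 0 ∧ c 0 w = i} ∪ {w | w ≠ 0 ∧ c 0 w = j}).Infinite := by
    have h0 : ({0}ᶜ : Set ℕ).Infinite := (Set.finite_singleton 0).infinite_compl
    refine h0.mono fun w hw => ?_
    have hw' : w ≠ 0 := hw
    rcases hc 0 w hw'.symm with h | h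
    · exact Or.inl ⟨hw', h⟩
    · exact Or.inr ⟨hw', h⟩
  rcases Set.infinite_union.1 h with h | h
  · exact mono_aux i j hc h
  · exact (mono_aux j i (fun a b hab => (hc a b hab).symm) h).symm

theorem iij {C : Type} {c : ℕ → ℕ → C} (hs : ∀ a b, c a b = c b a) (hp : Prm c) {i j : C}
    (hij : i ≠ j) (hc : ∀ a b, a ≠ b → c a b = i ∨ c a b = j) (hi : ∃ a b, a ≠ b ∧ c a b = i)
    (hj : ∃ a b, a ≠ b ∧ c a b = j) : Tri c i i j := by
  by_contra hcon
  have tr : ∀ a b d, a ≠ b → b ≠ d → a ≠ d → c a b = i → c b d = i → c a d = i := by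
    intro a b d h1 h2 h3 h4 h5
    rcases hc a d h3 with h | h
    · exact h
    · exact absurd ⟨a, b, d, h1, h2, h3, h4, h5, h⟩ hcon
  obtain ⟨u, v, huv, hcuv⟩ := hi
  rcases hp {w | w = u ∨ c u w = i} (by
    have key : ∀ a, (a = u ∨ c u a = i) → ∀ w, ¬ (w = u ∨ c u w = i) → c a w = j := by
      intro a ha w hw
      have hwu : w ≠ u := fun h => hw (Or.inl h)
      have h1 : c u w ≠ i := fun h => hw (Or.inr h)
      have haw : a ≠ w := by rintro rfl; exact hw ha
      rcases ha with rfl | ha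
      · exact (hc _ _ haw).resolve_left h1
      · rcases hc a w haw with h | h
        · by_cases hau : u = a
          · subst hau; exact absurd h h1
          · exact absurd (tr u a w hau haw hwu.symm ha h) h1
        · exact h
    intro a ha b hb w hw
    rw [key a ha w hw, key b hb w hw]) with h | h
  · exact huv (h (Or.inl rfl) (Or.inr hcuv))
  · obtain ⟨a, b, hab, hcab⟩ := hj
    have hall : ∀ w, w ≠ u → c u w = i := by
      intro w hw
      have : w ∈ {w | w = u ∨ c u w = i} := by rw [h]; trivial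
      exact this.resolve_left hw
    have : c a b = i := by
      by_cases ha : a = u
      · subst ha; exact hall b hab.symm
      by_cases hb : b = u
      · subst hb; rw [hs]; exact hall a hab
      · exact tr a u b ha (Ne.symm hb) hab (by rw [hs]; exact hall a ha) (hall b hb)
    exact hij (this.symm.trans hcab)

/-- An infinite prime colouring without rainbow triangles has exactly two colours and a rich pair
of colours. -/
theorem rich_of_prime {C : Type} {c : ℕ → ℕ → C} (hs : ∀ a b, c a b = c b a) (hr : NR c)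
    (hp : Prm c) :
    ∃ i j, i ≠ j ∧ (∀ a b, a ≠ b → c a b = i ∨ c a b = j) ∧
      Tri c i i i ∧ Tri c i i j ∧ Tri c j j i := by
  classical
  -- two colours
  have h2 : ∃ a b, a ≠ b ∧ c a b ≠ c 0 1 := by
    by_contra hcon
    push Not at hcon
    rcases hp {0, 1} (by
      have key : ∀ a, a ∈ ({0, 1} : Set ℕ) → ∀ w, w ∉ ({0, 1} : Set ℕ) → c a w = c 0 1 := by
        intro a ha w hw
        exact hcon a w (by rintro rfl; exact hw ha)
      intro a ha b hb w hw
      rw [key a ha w hw, key b hb w hw]) with h | h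
    · exact absurd (h (show (0 : ℕ) ∈ ({0, 1} : Set ℕ) by simp) (show (1 : ℕ) ∈ ({0, 1} : Set ℕ) by simp))
        (by decide)
    · have : (2 : ℕ) ∈ ({0, 1} : Set ℕ) := by rw [h]; trivial
      simp at this
  obtain ⟨a, b, hab, hne⟩ := h2
  set i := c 0 1 with hi
  set j := c a b with hj
  have hc : ∀ u v, u ≠ v → c u v = i ∨ c u v = j := by
    intro u v huv
    by_contra hcon
    push Not at hcon
    obtain ⟨k, hk⟩ := two_colours hs hr hp (fun x => if x = i then 0 else if x = j then 1 else 2)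
    have k0 : (0 : Fin 3) ≠ k := by
      have := hk 0 1 (by decide)
      simpa [← hi] using this
    have k1 : (1 : Fin 3) ≠ k := by
      have := hk a b hab
      simpa [← hj, hne] using this
    have k2 : (2 : Fin 3) ≠ k := by
      have := hk u v huv
      simpa [hcon.1, hcon.2] using this
    revert k0 k1 k2
    have h3 : ∀ k : Fin 3, 0 ≠ k → 1 ≠ k → 2 ≠ k → False := by decide
    exact h3 k
  have hi' : ∃ a b, a ≠ b ∧ c a b = i := ⟨0, 1, by decide, rfl⟩
  have hj' : ∃ a b, a ≠ b ∧ c a b = j := ⟨a, b, hab, rfl⟩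
  have t1 := iij hs hp hne.symm hc hi' hj'
  have t2 := iij hs hp hne (fun a b hab => (hc a b hab).symm) hj' hi'
  rcases mono i j hc with h | h
  · exact ⟨i, j, hne.symm, hc, h, t1, t2⟩
  · exact ⟨j, i, hne, fun a b hab => (hc a b hab).symm, h, t2, t1⟩

end Pool.Agent.H16VC
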